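import Mathlib

/-!
# Matrices with only one eigenvalue
-/

set_option autoImplicit false
set_option linter.unusedSectionVars false
set_option linter.dupNamespace false

namespace Pool.Agent.N817.PL.DD

open Polynomial

/-- square matrices -/
abbrev Mat (n : ℕ) (F : Type*) : Type _ := Matrix (Fin n) (Fin n) F

section ring

variable {R S : Type*} [CommRing R] [CommRing S] {n : ℕ}

/-- this matrix is zero if and only if the matrix `A` has only one eigenvalue -/
def DD (A : Mat n R) : Mat n R := ((n : R) • A - A.trace • (1 : Mat n R)) ^ n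

theorem map_DD (f : R →+* S) (A : Mat n R) : f.mapMatrix (DD A) = DD (f.mapMatrix A) := by
  unfold DD
  rw [map_pow, map_sub]
  congr 1
  ext i j
  simp only [RingHom.mapMatrix_apply, Matrix.map_apply, Matrix.sub_apply, Matrix.smul_apply,
    smul_eq_mul, map_mul, map_natCast]
  congr 2
  · simp [Matrix.trace, map_sum]
  · by_cases h : i = j
    · subst h
      simp
    · simp [h]

theorem DD_smul (c : R) (A : Mat n R) : DD (c • A) = c ^ n • DD A := by
  unfold DD
  rw [← _root_.smul_pow, smul_sub, Matrix.trace_smul, smul_smul, smul_smul, smul_smul, smul_eq_mul,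
    mul_comm c A.trace, mul_comm c (n : R)]

end ring

section field

variable {k : Type*} [Field k] [CharZero k] {n : ℕ}

theorem pow_eq_zero_of_nilpotent {A : Mat n k} (hA : IsNilpotent A) : A ^ n = 0 := by
  have h1 := (Matrix.isNilpotent_charpoly_sub_pow_of_isNilpotent hA).eq_zero
  rw [Fintype.card_fin, sub_eq_zero] at h1
  have h2 := Matrix.aeval_self_charpoly A
  rw [h1] at h2
  simpa using h2

theorem trace_eq_zero_of_nilpotent {A : Mat n k} (hA : IsNilpotent A) : A.trace = 0 :=
  (Matrix.isNilpotent_trace_of_isNilpotent hA).eq_zero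

theorem DD_eq_zero {A : Mat n k} {c : k} (h : IsNilpotent (A - c • (1 : Mat n k))) : DD A = 0 := by
  unfold DD
  apply pow_eq_zero_of_nilpotent
  have h1 : A.trace = n * c := by
    have h2 := trace_eq_zero_of_nilpotent h
    rw [Matrix.trace_sub, Matrix.trace_smul, Matrix.trace_one, Fintype.card_fin, sub_eq_zero] at h2
    rw [h2, smul_eq_mul, mul_comm]
  have h2 : (n : k) • A - A.trace • (1 : Mat n k) = (n : k) • (A - c • (1 : Mat n k)) := by
    rw [h1, smul_sub, smul_smul]
  rw [h2]
  obtain ⟨m, hm⟩ := h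
  exact ⟨m, by rw [_root_.smul_pow, hm, smul_zero]⟩

theorem of_DD {A : Mat n k} (hn : 0 < n) (h : DD A = 0) :
    IsNilpotent (A - ((n : k)⁻¹ * A.trace) • (1 : Mat n k)) := by
  have hn0 : (n : k) ≠ 0 := by exact_mod_cast hn.ne'
  refine ⟨n, ?_⟩
  have h1 : A - ((n : k)⁻¹ * A.trace) • (1 : Mat n k) =
      (n : k)⁻¹ • ((n : k) • A - A.trace • (1 : Mat n k)) := by
    rw [smul_sub, smul_smul, smul_smul, inv_mul_cancel₀ hn0, one_smul]
  rw [h1, _root_.smul_pow]
  unfold DD at h
  rw [h, smul_zero]

theorem DD_iff {A : Mat n k} (hn : 0 < n) :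
    DD A = 0 ↔ ∃ c : k, IsNilpotent (A - c • (1 : Mat n k)) :=
  ⟨fun h => ⟨_, of_DD hn h⟩, fun ⟨_, h⟩ => DD_eq_zero h⟩

end field

section poly

variable {k : Type*} [Field k] [CharZero k] {n : ℕ}

/-- evaluation of a polynomial matrix -/
noncomputable def ev (t : k) : Mat n k[X] →+* Mat n k := (evalRingHom t).mapMatrix

theorem ev_apply (t : k) (P : Mat n k[X]) (i j : Fin n) : ev t P i j = (P i j).eval t := rfl

/-- a constant polynomial matrix -/
noncomputable def cst (A : Mat n k) : Mat n k[X] := (C : k →+* k[X]).mapMatrix A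

theorem ev_cst (t : k) (A : Mat n k) : ev t (cst A) = A := by
  ext i j
  rw [ev_apply]
  simp [cst]

theorem ev_eq_zero {P : Mat n k[X]} {T : Set k} (hT : T.Infinite) (h : ∀ t ∈ T, ev t P = 0) (t : k) :
    ev t P = 0 := by
  ext i j
  rw [ev_apply, Matrix.zero_apply]
  have h1 : P i j = 0 := by
    apply Polynomial.eq_zero_of_infinite_isRoot
    refine hT.mono fun t ht => ?_
    have h2 := congrFun (congrFun (h t ht) i) j
    rw [ev_apply] at h2
    exact h2
  rw [h1, eval_zero]

theorem map_DD_ev (t : k) (P : Mat n k[X]) : ev t (DD P) = DD (ev t P) := map_DD _ _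

/-- `(1 + μ) ^ T` for a nilpotent matrix `μ` as a polynomial in `T` -/
noncomputable def E (μ : Mat n k) : Mat n k[X] :=
  ∑ j ∈ Finset.range n, (C ((Nat.factorial j : k)⁻¹) * descPochhammer k j) • cst (μ ^ j)

theorem ev_E {μ : Mat n k} (hμ : IsNilpotent μ) (m : ℕ) : ev (m : k) (E μ) = (1 + μ) ^ m := by
  have h1 : ev (m : k) (E μ) = ∑ j ∈ Finset.range n, ((m.choose j : ℕ) : k) • μ ^ j := by
    unfold E
    rw [map_sum]
    refine Finset.sum_congr rfl fun j _ => ?_
    ext a b
    rw [ev_apply, Matrix.smul_apply, smul_eq_mul, eval_mul, eval_mul, eval_C,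
      descPochhammer_eval_eq_descFactorial, Nat.descFactorial_eq_factorial_mul_choose]
    have h2 := congrFun (congrFun (ev_cst (m : k) (μ ^ j)) a) b
    rw [ev_apply] at h2
    rw [h2, Matrix.smul_apply, smul_eq_mul]
    congr 1
    push_cast
    have : (Nat.factorial j : k) ≠ 0 := by exact_mod_cast Nat.factorial_ne_zero j
    field_simp
  have hz : ∀ j, n ≤ j → μ ^ j = 0 := by
    intro j hj
    obtain ⟨i, rfl⟩ := Nat.exists_eq_add_of_le hj
    rw [pow_add, pow_eq_zero_of_nilpotent hμ, zero_mul]
  rw [h1, add_comm, (Commute.one_right μ).add_pow]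
  simp only [one_pow, mul_one]
  have h3 : ∀ j, μ ^ j * ((m.choose j : ℕ) : Mat n k) = ((m.choose j : ℕ) : k) • μ ^ j := by
    intro j
    rw [← (Nat.cast_commute _ _).eq]
    ext a b
    rw [← nsmul_eq_mul]
    simp
  simp only [h3]
  -- compare both sums with the sum over a large range
  rw [Finset.sum_subset (Finset.range_mono (le_max_left n (m + 1)) : Finset.range n ⊆ _),
    Finset.sum_subset (Finset.range_mono (le_max_right n (m + 1)) : Finset.range (m + 1) ⊆ _)]
  · intro j _ hj
    rw [Finset.mem_range, not_lt] at hj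
    rw [Nat.choose_eq_zero_of_lt (by omega), Nat.cast_zero, zero_smul]
  · intro j _ hj
    rw [Finset.mem_range, not_lt] at hj
    rw [hz j hj, smul_zero]

end poly

end Pool.Agent.N817.PL.DD
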