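import Pool.Agent.H86.FMLib.N817.PL.Lim
import Pool.Agent.H86.FMLib.N817.PL.DD

/-!
# Matrices over a complete extension of `ℚ_p` as a Banach algebra
-/

set_option autoImplicit false
set_option linter.unusedSectionVars false

namespace Pool.Agent.N817.PL.Nrm

open Filter Topology Pool.Agent.N817.PL.DD

variable {p : ℕ} [hp : Fact p.Prime] {F : Type*} [NormedField F] [NormedAlgebra ℚ_[p] F] {n : ℕ}

/-- `F` is ultrametric -/
theorem ultra (p : ℕ) [Fact p.Prime] (F : Type*) [NormedField F] [NormedAlgebra ℚ_[p] F] :
    IsUltrametricDist F := IsUltrametricDist.of_normedAlgebra ℚ_[p]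

/-- the normed ring of square matrices with the maximum norm -/
@[reducible] noncomputable def nring [IsUltrametricDist F] : NormedRing (Mat n F) :=
  { Matrix.normedAddCommGroup (m := Fin n) (n := Fin n) (α := F),
    (inferInstance : Ring (Mat n F)) with
    norm_mul_le := by
      let := Matrix.normedAddCommGroup (m := Fin n) (n := Fin n) (α := F)
      intro A B
      rw [Matrix.norm_le_iff (by positivity)]
      intro i j
      rw [Matrix.mul_apply]
      apply IsUltrametricDist.norm_sum_le_of_forall_le_of_nonneg (by positivity)
      intro l _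
      rw [norm_mul]
      exact mul_le_mul (Matrix.norm_entry_le_entrywise_sup_norm A)
        (Matrix.norm_entry_le_entrywise_sup_norm B) (norm_nonneg _) (norm_nonneg _) }

attribute [local instance] nring

theorem norm_entry [IsUltrametricDist F] (A : Mat n F) (i j : Fin n) : ‖A i j‖ ≤ ‖A‖ :=
  Matrix.norm_entry_le_entrywise_sup_norm A

theorem norm_le [IsUltrametricDist F] {A : Mat n F} {r : ℝ} (hr : 0 ≤ r) : ‖A‖ ≤ r ↔ ∀ i j, ‖A i j‖ ≤ r :=
  Matrix.norm_le_iff hr

/-- the normed algebra of matrices -/
@[reducible] noncomputable def nalg {k : Type*} [NormedField k] [IsUltrametricDist F] [NormedAlgebra k F] :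
    NormedAlgebra k (Mat n F) :=
  { (inferInstance : Algebra k (Mat n F)) with
    norm_smul_le := by
      intro c A
      rw [norm_le (by positivity)]
      intro i j
      rw [Matrix.smul_apply, norm_smul]
      exact mul_le_mul_of_nonneg_left (norm_entry A i j) (norm_nonneg _) }

attribute [local instance] nalg

theorem ultraMat [IsUltrametricDist F] : IsUltrametricDist (Mat n F) := by
  have h : IsUltrametricDist (∀ _ : Fin n, ∀ _ : Fin n, F) := inferInstance
  exact h

theorem complete [IsUltrametricDist F] [CompleteSpace F] : CompleteSpace (Mat n F) := by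
  have h : CompleteSpace (∀ _ : Fin n, ∀ _ : Fin n, F) := inferInstance
  exact h

end Pool.Agent.N817.PL.Nrm
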