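import Pool.Agent.H86.FMLib.N817.PL.Solv2
import Pool.Agent.H86.FMLib.N817.PL.Iso

/-!
# Cosets on which the characteristic polynomial is constant in the direction of the commutators
-/

set_option autoImplicit false
set_option linter.unusedSectionVars false

namespace Pool.Agent.N817.PL.Abs2

open Pool.Agent.N817.PL.DD Pool.Agent.N817.PL.Nrm Pool.Agent.N817.PL.Lie Pool.Agent.N817.PL.Abs
open Filter Topology

section ring

variable {R : Type*} [CommRing R] {n : ℕ}

theorem Bm_add (s : Mat n R) (m : ℕ) (x y : Mat n R) : Bm s m (x + y) = Bm s m x + Bm s m y := by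
  induction m with
  | zero => simp [Bm]
  | succ m ih =>
    unfold Bm
    rw [ih, add_mul, mul_add]
    abel

theorem Bm_zero (s : Mat n R) (m : ℕ) : Bm s m 0 = 0 := by
  induction m with
  | zero => simp [Bm]
  | succ m ih =>
    unfold Bm
    rw [ih, zero_mul, mul_zero, add_zero]

theorem Bm_smul (s : Mat n R) (m : ℕ) (c : R) (x : Mat n R) : Bm s m (c • x) = c • Bm s m x := by
  induction m with
  | zero => simp [Bm]
  | succ m ih =>
    unfold Bm
    rw [ih, smul_mul_assoc, mul_smul_comm, smul_add]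

theorem trace_Bm (s y : Mat n R) (m : ℕ) : ∀ l : ℕ,
    (Bm s m y * s ^ l).trace = (m : R) * (s ^ (m + l) * y).trace := by
  induction m with
  | zero =>
    intro l
    simp [Bm]
  | succ m ih =>
    intro l
    unfold Bm
    rw [add_mul, Matrix.trace_add, mul_assoc (Bm s m y), ← pow_succ', ih (l + 1), mul_assoc (s ^ (m + 1)),
      Matrix.trace_mul_comm (s ^ (m + 1)), mul_assoc y, ← pow_add, Matrix.trace_mul_comm y]
    have h1 : l + (m + 1) = m + 1 + l := by omega
    have h2 : m + (l + 1) = m + 1 + l := by omega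
    rw [h1, h2]
    push_cast
    ring

theorem trace_Bm' (s y : Mat n R) (m : ℕ) :
    (Bm s m y).trace = (m : R) * (s ^ m * y).trace := by
  have := trace_Bm s y m 0
  rwa [pow_zero, mul_one, add_zero] at this

end ring

section span

variable {k₀ Ω : Type*} [Field k₀] [Field Ω] [Algebra k₀ Ω] {n : ℕ}

theorem lie_span' (L : Set (Mat n Ω)) (T : Submodule Ω (Mat n Ω))
    (hL : ∀ x ∈ L, ∀ y ∈ L, x * y - y * x ∈ T)
    {x y : Mat n Ω} (hx : x ∈ Submodule.span Ω L) (hy : y ∈ Submodule.span Ω L) :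
    x * y - y * x ∈ T := by
  induction hx using Submodule.span_induction with
  | mem x hx =>
    induction hy using Submodule.span_induction with
    | mem y hy => exact hL x hx y hy
    | zero =>
      rw [mul_zero, zero_mul, sub_zero]
      exact Submodule.zero_mem _
    | add y z _ _ hy hz =>
      rw [mul_add, add_mul, add_sub_add_comm]
      exact Submodule.add_mem _ hy hz
    | smul c y _ hy =>
      rw [mul_smul_comm, smul_mul_assoc, ← smul_sub]
      exact Submodule.smul_mem _ c hy
  | zero =>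
    rw [mul_zero, zero_mul, sub_zero]
    exact Submodule.zero_mem _
  | add x z _ _ hx hz =>
    rw [mul_add, add_mul, add_sub_add_comm]
    exact Submodule.add_mem _ hx hz
  | smul c x _ hx =>
    rw [mul_smul_comm, smul_mul_assoc, ← smul_sub]
    exact Submodule.smul_mem _ c hx

theorem trace_span (L : Set (Mat n Ω)) (M : Mat n Ω) (j : ℕ)
    (h : ∀ x ∈ L, ∀ y ∈ L, (Bm M j x * y).trace = 0)
    {x y : Mat n Ω} (hx : x ∈ Submodule.span Ω L) (hy : y ∈ Submodule.span Ω L) :
    (Bm M j x * y).trace = 0 := by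
  induction hx using Submodule.span_induction with
  | mem x hx =>
    induction hy using Submodule.span_induction with
    | mem y hy => exact h x hx y hy
    | zero => rw [mul_zero, Matrix.trace_zero]
    | add y z _ _ hy hz => rw [mul_add, Matrix.trace_add, hy, hz, add_zero]
    | smul c y _ hy => rw [mul_smul_comm, Matrix.trace_smul, hy, smul_zero]
  | zero => rw [Bm_zero, zero_mul, Matrix.trace_zero]
  | add x z _ _ hx hz => rw [Bm_add, add_mul, Matrix.trace_add, hx, hz, add_zero]
  | smul c x _ hx => rw [Bm_smul, smul_mul_assoc, Matrix.trace_smul, hx, smul_zero]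

end span

section lim

open Pool.Agent.N817.PL.Lim

variable {p : ℕ} [hp : Fact p.Prime] {R : Type*} [NormedRing R] [NormedAlgebra ℚ_[p] R]
  {G : Type*} [Group G] {r : G →* R} {U : Subgroup G}

theorem lie_mem' {W : Subgroup G} (hW : ∀ a ∈ U, ∀ b ∈ U, a * b * a⁻¹ * b⁻¹ ∈ W) {C : ℝ}
    (hC : ∀ g, ‖r g‖ ≤ C) {x y : R} (hx : x ∈ Lim.L p r U) (hy : y ∈ Lim.L p r U) :
    x * y - y * x ∈ Lim.L p r W := by
  obtain ⟨u, hu⟩ := hx
  obtain ⟨w, hw⟩ := hy
  exact ⟨_, fun k => hW _ (hu.1 _) _ (hw.1 _), (hu.lie hC hw).2⟩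

end lim

section main

variable {p : ℕ} [hp : Fact p.Prime] {F : Type*} [NormedField F] [NormedAlgebra ℚ_[p] F]
  [CompleteSpace F] {n : ℕ} {G : Type*} [Group G]

attribute [local instance] nring nalg

variable [IsUltrametricDist F]

theorem continuous_trace : Continuous fun A : Mat n F => A.trace := by
  unfold Matrix.trace
  exact continuous_finsetSum _ fun i _ => continuous_id.matrix_elem i i

open Pool.Agent.N817.PL.Lim in
theorem first (r : G →* Mat n F) (W : Subgroup G) (g : G) {δ : ℝ}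
    (hδ : ∀ w ∈ W, ‖r w - 1‖ < δ → ∀ j, 0 < j → j ≤ n → (r (g * w) ^ j).trace = (r g ^ j).trace)
    {y : Mat n F} (hy : y ∈ Lim.L p r W) {u : G} (hu : u ∈ W) (huδ : ‖r u - 1‖ < δ) {j : ℕ}
    (hj0 : 0 < j) (hjn : j ≤ n) : (r (g * u) ^ j * y).trace = 0 := by
  have hcharF : CharZero F := charZero_of_injective_algebraMap (algebraMap ℚ_[p] F).injective
  obtain ⟨w, hw⟩ := hy
  have h1 := tendsto_Bm (p := p) (r (g * u)) y _ hw.2 j
  have h2 := (continuous_trace.tendsto _).comp h1
  have h3 : (Bm (r (g * u)) j y).trace = 0 := by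
    refine tendsto_nhds_unique h2 ?_
    have h4 : Tendsto (fun k => r (u * w k) - 1) atTop (𝓝 (r u - 1)) := by
      have h5 := (hw.one.const_mul (r u)).sub_const 1
      rw [mul_one] at h5
      refine h5.congr fun k => ?_
      rw [map_mul]
    have h5 : ∀ᶠ k in atTop, ‖r (u * w k) - 1‖ < δ := h4.norm.eventually (gt_mem_nhds huδ)
    refine tendsto_const_nhds.congr' ?_
    filter_upwards [h5] with k hk
    simp only [Function.comp]
    rw [← back, add_sub_cancel, ← map_mul, Matrix.trace_smul, Matrix.trace_sub, mul_assoc,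
      hδ _ (W.mul_mem hu (hw.1 k)) hk j hj0 hjn, hδ u hu huδ j hj0 hjn, sub_self, smul_zero]
  rw [trace_Bm'] at h3
  rcases mul_eq_zero.1 h3 with h4 | h4
  · exact absurd h4 (by exact_mod_cast hj0.ne')
  · exact h4

open Pool.Agent.N817.PL.Lim in
theorem second (r : G →* Mat n F) (W : Subgroup G) (g : G) {δ : ℝ} (hδ0 : 0 < δ)
    (hδ : ∀ w ∈ W, ‖r w - 1‖ < δ → ∀ j, 0 < j → j ≤ n → (r (g * w) ^ j).trace = (r g ^ j).trace)
    {x y : Mat n F} (hx : x ∈ Lim.L p r W) (hy : y ∈ Lim.L p r W) {j : ℕ}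
    (hj0 : 0 < j) (hjn : j ≤ n) : (Bm (r g) j x * y).trace = 0 := by
  obtain ⟨u, hu⟩ := hx
  have h1 := tendsto_Bm (p := p) (r g) x _ hu.2 j
  have h2 := (continuous_trace.tendsto _).comp (h1.mul_const y)
  refine tendsto_nhds_unique h2 ?_
  have h5 : ∀ᶠ k in atTop, ‖r (u k) - 1‖ < δ := by
    have h6 := hu.sub_one.norm
    rw [norm_zero] at h6
    exact h6.eventually (gt_mem_nhds hδ0)
  refine tendsto_const_nhds.congr' ?_
  filter_upwards [h5] with k hk
  simp only [Function.comp]
  rw [← back, add_sub_cancel, ← map_mul, smul_mul_assoc, Matrix.trace_smul, sub_mul,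
    Matrix.trace_sub, first r W g hδ hy (hu.1 k) hk hj0 hjn]
  have h7 := first r W g hδ hy W.one_mem (by rwa [map_one, sub_self, norm_zero]) hj0 hjn
  rw [mul_one] at h7
  rw [h7, sub_self, smul_zero]

end main

end Pool.Agent.N817.PL.Abs2
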