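import Pool.Agent.H86.FMLib.N817.PL.Abs2

/-!
# The main argument for abstract groups, general form
-/

set_option autoImplicit false
set_option linter.unusedSectionVars false

namespace Pool.Agent.N817.PL.Abs3

open Pool.Agent.N817.PL.DD Pool.Agent.N817.PL.Nrm Pool.Agent.N817.PL.Lie Pool.Agent.N817.PL.Abs
open Pool.Agent.N817.PL.Abs2 Filter Topology

attribute [local instance] nring nalg
attribute [local instance 100] LieRing.ofAssociativeRing

section main

variable (p : ℕ) [hp : Fact p.Prime] {F : Type*} [NormedField F] [NormedAlgebra ℚ_[p] F]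
  [CompleteSpace F] [IsUltrametricDist F] {n : ℕ} {G : Type*} [Group G]

/-- the Lie algebra over the algebraic closure -/
noncomputable def LL (r : G →* Mat n F) {C : ℝ} (hC : ∀ g, ‖r g‖ ≤ C) (U : Subgroup G) :
    LieSubalgebra (AlgebraicClosure F) (Mat n (AlgebraicClosure F)) :=
  { Submodule.span (AlgebraicClosure F) ((em p F n) '' (Lim.L p r U : Set (Mat n F))) with
    lie_mem' := by
      intro X Y hX hY
      refine lie_span' _ _ ?_ hX hY
      rintro _ ⟨x, hx, rfl⟩ _ ⟨y, hy, rfl⟩
      rw [← map_mul, ← map_mul, ← map_sub]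
      exact Submodule.subset_span ⟨_, Lim.lie_mem hC hx hy, rfl⟩ }

variable {p}

theorem mem_LL {r : G →* Mat n F} {C : ℝ} {hC : ∀ g, ‖r g‖ ≤ C} {U : Subgroup G}
    {X : Mat n (AlgebraicClosure F)} : X ∈ LL p r hC U ↔ X ∈ Submodule.span (AlgebraicClosure F)
      ((em p F n) '' (Lim.L p r U : Set (Mat n F))) := Iff.rfl

theorem em_mem {r : G →* Mat n F} {C : ℝ} {hC : ∀ g, ‖r g‖ ≤ C} {U : Subgroup G}
    {X : Mat n F} (hX : X ∈ Lim.L p r U) : em p F n X ∈ LL p r hC U :=
  mem_LL.2 (Submodule.subset_span ⟨X, hX, rfl⟩)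

/-- **Solvability.** -/
theorem solv (r : G →* Mat n F) {C : ℝ} (hC : ∀ g, ‖r g‖ ≤ C) (U W : Subgroup G) (g : G)
    (hUn : ∀ v ∈ U, g * v * g⁻¹ ∈ U) (hW : ∀ a ∈ U, ∀ b ∈ U, a * b * a⁻¹ * b⁻¹ ∈ W)
    {δ : ℝ} (hδ0 : 0 < δ)
    (hδ : ∀ w ∈ W, ‖r w - 1‖ < δ → ∀ j, 0 < j → j ≤ n → (r (g * w) ^ j).trace = (r g ^ j).trace) :
    LieAlgebra.IsSolvable (LL p r hC U) := by
  have hcharF : CharZero F := charZero_of_injective_algebraMap (algebraMap ℚ_[p] F).injective
  have hcharΩ : CharZero (AlgebraicClosure F) :=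
    charZero_of_injective_algebraMap (algebraMap F (AlgebraicClosure F)).injective
  let M : (Mat n F)ˣ := ⟨r g, r g⁻¹, by rw [← map_mul, mul_inv_cancel, map_one],
    by rw [← map_mul, inv_mul_cancel, map_one]⟩
  let M' : (Mat n (AlgebraicClosure F))ˣ :=
    Units.map ((em p F n : Mat n F →ₐ[ℚ_[p]] _) : Mat n F →* _) M
  have hM' : (M' : Mat n (AlgebraicClosure F)) = em p F n (r g) := rfl
  have hM'i : ((M'⁻¹ : (Mat n (AlgebraicClosure F))ˣ) : Mat n (AlgebraicClosure F)) =
    em p F n (r g⁻¹) := rfl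
  refine Solv2.solvable2 (LL p r hC U) M' ?_ (Submodule.span (AlgebraicClosure F)
      ((em p F n) '' (Lim.L p r W : Set (Mat n F)))) ?_ ?_
  · intro X hX
    rw [mem_LL] at hX ⊢
    rw [hM', hM'i]
    induction hX using Submodule.span_induction with
    | mem X hX =>
      obtain ⟨x, hx, rfl⟩ := hX
      rw [← map_mul, ← map_mul]
      exact Submodule.subset_span ⟨_, Lim.conj_mem g hUn hx, rfl⟩
    | zero =>
      rw [mul_zero, zero_mul]
      exact Submodule.zero_mem _
    | add x y _ _ hx hy =>
      rw [mul_add, add_mul]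
      exact Submodule.add_mem _ hx hy
    | smul a x _ hx =>
      rw [mul_smul_comm, smul_mul_assoc]
      exact Submodule.smul_mem _ a hx
  · intro X hX Y hY
    rw [mem_LL] at hX hY
    refine lie_span' _ _ ?_ hX hY
    rintro _ ⟨x, hx, rfl⟩ _ ⟨y, hy, rfl⟩
    rw [← map_mul, ← map_mul, ← map_sub]
    exact Submodule.subset_span ⟨_, lie_mem' hW hC hx hy, rfl⟩
  · intro X hX Y hY j hj0 hjn
    refine trace_span _ _ j ?_ hX hY
    rintro _ ⟨x, hx, rfl⟩ _ ⟨y, hy, rfl⟩
    have h1 := second r W g hδ0 hδ hx hy hj0 hjn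
    have h2 : Bm (em p F n (r g)) j (em p F n x) = em p F n (Bm (r g) j x) :=
      (Bm_map (algebraMap F (AlgebraicClosure F)) (r g) j x).symm
    rw [hM', h2, ← map_mul]
    have h3 : ∀ A : Mat n F, (em p F n A).trace = algebraMap F (AlgebraicClosure F) A.trace := by
      intro A
      simp [em_apply, Matrix.trace, map_sum]
    rw [h3, h1, map_zero]

/-- a subspace stable under the group is stable under the Lie algebra -/
theorem stable_L {r : G →* Mat n F} {U : Subgroup G} (V : Submodule F (Fin n → F))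
    (hV : ∀ g, ∀ x ∈ V, (r g).mulVec x ∈ V) {X : Mat n F} (hX : X ∈ Lim.L p r U) :
    ∀ x ∈ V, X.mulVec x ∈ V := by
  let T : Submodule F (Mat n F) :=
    { carrier := {A | ∀ x ∈ V, A.mulVec x ∈ V}
      add_mem' := by
        intro A B hA hB x hx
        rw [Matrix.add_mulVec]
        exact V.add_mem (hA x hx) (hB x hx)
      zero_mem' := by
        intro x _
        rw [Matrix.zero_mulVec]
        exact V.zero_mem
      smul_mem' := by
        intro c A hA x hx
        rw [Matrix.smul_mulVec]
        exact V.smul_mem c (hA x hx) }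
  have hT := isClosed_sub p T
  obtain ⟨u, hu⟩ := hX
  refine hT.mem_of_tendsto hu.2 (Eventually.of_forall fun k => ?_)
  have h1 : r (u k) - 1 ∈ T := by
    intro x hx
    rw [Matrix.sub_mulVec, Matrix.one_mulVec]
    exact V.sub_mem (hV _ x hx) hx
  have h2 := T.smul_mem (algebraMap ℚ_[p] F (((p : ℚ_[p])⁻¹) ^ k)) h1
  rw [algebraMap_smul] at h2
  exact h2

/-- **common eigenvectors** in stable subspaces -/
theorem common2 (r : G →* Mat n F) {C : ℝ} (hC : ∀ g, ‖r g‖ ≤ C) (U : Subgroup G)
    (hsmall : ∀ u ∈ U, ‖r u - 1‖ ≤ 1 / 4) (hsolv : LieAlgebra.IsSolvable (LL p r hC U))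
    (V : Submodule F (Fin n → F)) (hV : ∀ g, ∀ x ∈ V, (r g).mulVec x ∈ V) (hV0 : V ≠ ⊥) :
    ∃ x ∈ V, x ≠ 0 ∧ ∀ u ∈ U, ∀ v ∈ U, (r u * r v - r v * r u).mulVec x = 0 := by
  have hcharF : CharZero F := charZero_of_injective_algebraMap (algebraMap ℚ_[p] F).injective
  have hcharΩ : CharZero (AlgebraicClosure F) :=
    charZero_of_injective_algebraMap (algebraMap F (AlgebraicClosure F)).injective
  set f := algebraMap F (AlgebraicClosure F) with hf
  -- the extension of scalars of `V`
  have hmv : ∀ (A : Mat n F) (x : Fin n → F), (f.mapMatrix A).mulVec (fun i => f (x i)) =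
      fun i => f (A.mulVec x i) := by
    intro A x
    ext i
    simp [Matrix.mulVec, dotProduct, map_sum]
  let VΩ : LieSubmodule (AlgebraicClosure F) (LL p r hC U) (Fin n → AlgebraicClosure F) :=
    { Submodule.span (AlgebraicClosure F) ((fun x : Fin n → F => fun i => f (x i)) '' (V : Set _)) with
      lie_mem := by
        rintro ⟨X, hX⟩ w hw
        change X.mulVec w ∈ Submodule.span (AlgebraicClosure F) _
        have hw' : w ∈ Submodule.span (AlgebraicClosure F)
          ((fun x : Fin n → F => fun i => f (x i)) '' (V : Set _)) := hw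
        rw [mem_LL] at hX
        clear hw
        induction hX using Submodule.span_induction with
        | mem X hX =>
          obtain ⟨x, hx, rfl⟩ := hX
          induction hw' using Submodule.span_induction with
          | mem w hw =>
            obtain ⟨v, hv, rfl⟩ := hw
            change (f.mapMatrix x).mulVec _ ∈ _
            rw [hmv]
            exact Submodule.subset_span ⟨_, stable_L V hV hx v hv, rfl⟩
          | zero =>
            rw [Matrix.mulVec_zero]
            exact Submodule.zero_mem _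
          | add a b _ _ ha hb =>
            rw [Matrix.mulVec_add]
            exact Submodule.add_mem _ ha hb
          | smul c a _ ha =>
            rw [Matrix.mulVec_smul]
            exact Submodule.smul_mem _ c ha
        | zero =>
          rw [Matrix.zero_mulVec]
          exact Submodule.zero_mem _
        | add a b _ _ ha hb =>
          rw [Matrix.add_mulVec]
          exact Submodule.add_mem _ ha hb
        | smul c a _ ha =>
          rw [Matrix.smul_mulVec]
          exact Submodule.smul_mem _ c ha }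
  have hVΩ : ∀ w, w ∈ VΩ ↔ w ∈ Submodule.span (AlgebraicClosure F)
      ((fun x : Fin n → F => fun i => f (x i)) '' (V : Set _)) := fun w => Iff.rfl
  have hnt : Nontrivial VΩ := by
    obtain ⟨x, hx, hx0⟩ := Submodule.exists_mem_ne_zero_of_ne_bot hV0
    refine ⟨⟨⟨fun i => f (x i), Submodule.subset_span ⟨x, hx, rfl⟩⟩, 0, ?_⟩⟩
    intro h
    apply hx0
    have h1 := congrArg Subtype.val h
    ext i
    have h2 := congrFun h1 i
    have h3 : f (x i) = 0 := h2
    rwa [map_eq_zero] at h3
  obtain ⟨χ, hχ⟩ := LieModule.exists_nontrivial_weightSpace_of_isSolvable (AlgebraicClosure F)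
    (LL p r hC U) VΩ
  obtain ⟨⟨⟨w, hwV⟩, hw⟩, hw0⟩ := exists_ne (0 : LieModule.weightSpace VΩ χ)
  rw [LieModule.mem_weightSpace] at hw
  have hwne : w ≠ 0 := by
    intro h
    apply hw0
    apply Subtype.ext
    apply Subtype.ext
    exact h
  have hweig : ∀ X (hX : X ∈ LL p r hC U), X.mulVec w = χ ⟨X, hX⟩ • w := by
    intro X hX
    have h1 := congrArg Subtype.val (hw ⟨X, hX⟩)
    exact h1
  -- `w` is an eigenvector of `U`
  have hcomp : @CompleteSpace (Mat n F) PseudoMetricSpace.toUniformSpace := complete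
  have hult : IsUltrametricDist (Mat n F) := ultraMat
  have hwU : ∀ u ∈ U, ∃ a : AlgebraicClosure F, (f.mapMatrix (r u)).mulVec w = a • w := by
    intro u hu
    obtain ⟨ℓ, hℓ⟩ := Log.exists_log (p := p) (R := Mat n F) (x := r u - 1) (hsmall u hu)
    have hℓL : ℓ ∈ Lim.L p r U := Lim.log_mem hu hℓ
    have hℓS : ℓ ∈ S w := ⟨_, hweig (em p F n ℓ) (em_mem hℓL)⟩
    have h4 := Log.mem_of_log ((S w).restrictScalars ℚ_[p]) (isClosed_sub p (S w).toSubmodule)
      (hsmall u hu) hℓ hℓS
    have h5 : r u - 1 ∈ S w := h4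
    have h6 : r u ∈ S w := by
      have := (S w).add_mem h5 (S w).one_mem
      rwa [sub_add_cancel] at this
    exact h6
  -- back to `F`
  obtain ⟨i, hi⟩ : ∃ i, w i ≠ 0 := by
    by_contra h
    push Not at h
    exact hwne (funext h)
  obtain ⟨φ, hφ⟩ : ∃ φ : Module.Dual F (AlgebraicClosure F), φ (w i) ≠ 0 := by
    by_contra h
    push Not at h
    exact hi ((Module.forall_dual_apply_eq_zero_iff F (w i)).1 h)
  refine ⟨fun j => φ (w j), ?_, ?_, ?_⟩
  · have h1 : ∀ w ∈ Submodule.span (AlgebraicClosure F)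
        ((fun x : Fin n → F => fun i => f (x i)) '' (V : Set _)), (fun j => φ (w j)) ∈ V := by
      intro w hw
      have h2 : ∀ c : AlgebraicClosure F, (fun j => φ (c * w j)) ∈ V := by
        induction hw using Submodule.span_induction with
        | mem w hw =>
          obtain ⟨v, hv, rfl⟩ := hw
          intro c
          have h3 : (fun j => φ (c * f (v j))) = φ c • v := by
            ext j
            rw [Pi.smul_apply, smul_eq_mul, mul_comm c, ← Algebra.smul_def, map_smul, smul_eq_mul,
              mul_comm]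
          rw [h3]
          exact V.smul_mem _ hv
        | zero =>
          intro c
          have h3 : (fun j => φ (c * (0 : Fin n → AlgebraicClosure F) j)) = 0 := by
            ext j
            simp
          rw [h3]
          exact V.zero_mem
        | add a b _ _ ha hb =>
          intro c
          have h3 : (fun j => φ (c * (a + b) j)) = (fun j => φ (c * a j)) + fun j => φ (c * b j) := by
            ext j
            simp [mul_add]
          rw [h3]
          exact V.add_mem (ha c) (hb c)
        | smul d a _ ha =>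
          intro c
          have h3 : (fun j => φ (c * (d • a) j)) = fun j => φ ((c * d) * a j) := by
            ext j
            simp [mul_assoc]
          rw [h3]
          exact ha _
      have h3 := h2 1
      simpa using h3
    exact h1 w hwV
  · intro h
    exact hφ (congrFun h i)
  · intro u hu v hv
    obtain ⟨a, ha⟩ := hwU u hu
    obtain ⟨b, hb⟩ := hwU v hv
    have h2 : (f.mapMatrix (r u * r v - r v * r u)).mulVec w = 0 := by
      rw [map_sub, map_mul, map_mul, Matrix.sub_mulVec, ← Matrix.mulVec_mulVec,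
        ← Matrix.mulVec_mulVec, ha, hb, Matrix.mulVec_smul, Matrix.mulVec_smul, ha, hb, smul_smul,
        smul_smul, mul_comm, sub_self]
    have h3 : ∀ A : Mat n F, A.mulVec (fun j => φ (w j)) =
        fun j => φ ((f.mapMatrix A).mulVec w j) := by
      intro A
      ext j
      simp only [Matrix.mulVec, dotProduct, RingHom.mapMatrix_apply, Matrix.map_apply]
      rw [map_sum]
      refine Finset.sum_congr rfl fun l _ => ?_
      rw [hf, ← Algebra.smul_def, map_smul, smul_eq_mul]
    rw [h3, h2]
    ext j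
    simp

end main

section semisimple

/-- the representation is semisimple -/
def Ss {F : Type*} [Field F] {n : ℕ} {G : Type*} [Group G] (r : G →* Mat n F) : Prop :=
  ∀ V : Submodule F (Fin n → F), (∀ g, ∀ x ∈ V, (r g).mulVec x ∈ V) →
    ∃ V' : Submodule F (Fin n → F), (∀ g, ∀ x ∈ V', (r g).mulVec x ∈ V') ∧ IsCompl V V'

/-- the image of `U` is commutative -/
theorem commutes2 {F : Type*} [Field F] {n : ℕ} {G : Type*} [Group G] (r : G →* Mat n F)
    (hss : Ss r) (U : Subgroup G) (hUn : ∀ g : G, ∀ v ∈ U, g * v * g⁻¹ ∈ U)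
    (h : ∀ V : Submodule F (Fin n → F), (∀ g, ∀ x ∈ V, (r g).mulVec x ∈ V) → V ≠ ⊥ →
      ∃ x ∈ V, x ≠ 0 ∧ ∀ u ∈ U, ∀ v ∈ U, (r u * r v - r v * r u).mulVec x = 0)
    (u : G) (hu : u ∈ U) (v : G) (hv : v ∈ U) : r u * r v = r v * r u := by
  let K₀ : Submodule F (Fin n → F) :=
    { carrier := {x | ∀ u ∈ U, ∀ v ∈ U, (r u * r v - r v * r u).mulVec x = 0}
      add_mem' := by
        intro x y hx hy u hu v hv
        rw [Matrix.mulVec_add, hx u hu v hv, hy u hu v hv, add_zero]
      zero_mem' := by
        intro u _ v _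
        exact Matrix.mulVec_zero _
      smul_mem' := by
        intro c x hx u hu v hv
        rw [Matrix.mulVec_smul, hx u hu v hv, smul_zero] }
  have hmem : ∀ x, x ∈ K₀ ↔ ∀ u ∈ U, ∀ v ∈ U, (r u * r v - r v * r u).mulVec x = 0 := fun x => Iff.rfl
  have hst : ∀ g, ∀ x ∈ K₀, (r g).mulVec x ∈ K₀ := by
    intro g x hx
    rw [hmem] at hx ⊢
    intro u hu v hv
    have h1 : ∀ a : G, r a * r g = r g * r (g⁻¹ * a * g) := by
      intro a
      rw [← map_mul, ← map_mul]
      congr 1
      group
    have h2 : ∀ a ∈ U, g⁻¹ * a * g ∈ U := by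
      intro a ha
      have := hUn g⁻¹ a ha
      rwa [inv_inv] at this
    have h3 : (r u * r v - r v * r u) * r g =
        r g * (r (g⁻¹ * u * g) * r (g⁻¹ * v * g) - r (g⁻¹ * v * g) * r (g⁻¹ * u * g)) := by
      have e1 : ∀ a b : G, r a * r b * r g = r g * (r (g⁻¹ * a * g) * r (g⁻¹ * b * g)) := by
        intro a b
        rw [mul_assoc, h1 b, ← mul_assoc (r a), h1 a, mul_assoc (r g)]
      rw [sub_mul, mul_sub, e1, e1]
    rw [Matrix.mulVec_mulVec, h3, ← Matrix.mulVec_mulVec, hx _ (h2 u hu) _ (h2 v hv),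
      Matrix.mulVec_zero]
  have htop : K₀ = ⊤ := by
    obtain ⟨V', hV', hc⟩ := hss K₀ hst
    have hV'0 : V' = ⊥ := by
      by_contra h0
      obtain ⟨x, hxV, hx0, hx⟩ := h V' hV' h0
      exact hx0 (Submodule.disjoint_def.1 hc.disjoint x hx hxV)
    have := hc.sup_eq_top
    rwa [hV'0, sup_bot_eq] at this
  have h1 : ∀ x, (r u * r v - r v * r u).mulVec x = 0 := by
    intro x
    have : x ∈ K₀ := by
      rw [htop]
      trivial
    exact (hmem x).1 this u hu v hv
  rw [← sub_eq_zero]
  ext i j
  have h2 := congrFun (h1 (Pi.single j 1)) i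
  rw [Matrix.mulVec_single_one] at h2
  exact h2

end semisimple

end Pool.Agent.N817.PL.Abs3
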