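import Pool.Agent.H86.FMLib.N817.PL.Krek

/-!
# The projections to the eigenspaces of an automorphism of finite order
-/

set_option autoImplicit false
set_option linter.unusedSectionVars false

namespace Pool.Agent.N817.PL.Proj

open Finset

variable {k D : Type*} [Field k] [CharZero k] [LieRing D] [LieAlgebra k D] {N : ℕ} [NeZero N]
  (σ : D →ₗ⁅k⁆ D) (ω : k)

/-- the projection -/
noncomputable def pr (i : ZMod N) : D →ₗ[k] D :=
  (N : k)⁻¹ • ∑ j ∈ range N, (ω⁻¹) ^ (i.val * j) • (σ : D →ₗ[k] D) ^ j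

theorem pr_apply (i : ZMod N) (x : D) :
    pr σ ω i x = (N : k)⁻¹ • ∑ j ∈ range N, (ω⁻¹) ^ (i.val * j) • σ^[j] x := by
  unfold pr
  rw [LinearMap.smul_apply, LinearMap.sum_apply]
  congr 1
  refine sum_congr rfl fun j _ => ?_
  rw [LinearMap.smul_apply, Module.End.pow_apply]
  rfl

theorem iter_lie (j : ℕ) (x y : D) : σ^[j] ⁅x, y⁆ = ⁅σ^[j] x, σ^[j] y⁆ := by
  induction j with
  | zero => rfl
  | succ j ih => rw [Function.iterate_succ_apply', ih, LieHom.map_lie, ← Function.iterate_succ_apply' σ,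
      ← Function.iterate_succ_apply' σ]

theorem iter_smul (j : ℕ) (c : k) (x : D) : σ^[j] (c • x) = c • σ^[j] x := by
  induction j with
  | zero => rfl
  | succ j ih => rw [Function.iterate_succ_apply', ih, map_smul,
      ← Function.iterate_succ_apply' σ]

variable {σ ω}

theorem sum_shift (f : ℕ → D) (h : f N = f 0) :
    ∑ j ∈ range N, f (j + 1) = ∑ j ∈ range N, f j := by
  have h1 := sum_range_succ f N
  have h2 := sum_range_succ' f N
  rw [h1, h] at h2
  exact (add_right_cancel h2).symm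

theorem sigma_pr (hω : ω ^ N = 1) (hσ : ∀ x, σ^[N] x = x) (i : ZMod N) (x : D) :
    σ (pr σ ω i x) = ω ^ i.val • pr σ ω i x := by
  have hω0 : ω ≠ 0 := by
    intro h
    rw [h, zero_pow (NeZero.ne N)] at hω
    exact zero_ne_one hω
  rw [pr_apply, map_smul, smul_comm (ω ^ i.val)]
  congr 1
  rw [map_sum, smul_sum, ← sum_shift (fun j => ω ^ i.val • (ω⁻¹) ^ (i.val * j) • σ^[j] x)]
  · refine sum_congr rfl fun j _ => ?_
    rw [map_smul, ← Function.iterate_succ_apply' σ, smul_smul]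
    congr 1
    rw [mul_add, mul_one, pow_add, mul_left_comm, inv_pow ω i.val,
      mul_inv_cancel₀ (pow_ne_zero _ hω0), mul_one]
  · rw [hσ, mul_zero, pow_zero, one_smul, Function.iterate_zero, id, smul_smul, mul_comm i.val,
      pow_mul, inv_pow, hω, inv_one, one_pow, mul_one]

theorem iter_pr (hω : ω ^ N = 1) (hσ : ∀ x, σ^[N] x = x) (i : ZMod N) (x : D) (j : ℕ) :
    σ^[j] (pr σ ω i x) = ω ^ (i.val * j) • pr σ ω i x := by
  induction j with
  | zero => simp
  | succ j ih =>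
    rw [Function.iterate_succ_apply', ih, map_smul, sigma_pr hω hσ, smul_smul, ← pow_add]
    ring_nf

theorem sum_pr (hω : IsPrimitiveRoot ω N) (x : D) : ∑ i : ZMod N, pr σ ω i x = x := by
  simp only [pr_apply]
  rw [← smul_sum, sum_comm]
  have hN : (N : k) ≠ 0 := by exact_mod_cast NeZero.ne N
  have h1 : ∀ j ∈ range N, ∑ i : ZMod N, (ω⁻¹) ^ (i.val * j) • σ^[j] x =
      if j = 0 then (N : k) • x else 0 := by
    intro j hj
    rw [← sum_smul]
    have h2 : ∑ i : ZMod N, (ω⁻¹) ^ (i.val * j) = ∑ i ∈ range N, ((ω⁻¹) ^ j) ^ i := by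
      obtain ⟨n, rfl⟩ : ∃ n, N = n + 1 := ⟨N - 1, (Nat.succ_pred_eq_of_ne_zero (NeZero.ne N)).symm⟩
      rw [← Fin.sum_univ_eq_sum_range (fun i => ((ω⁻¹) ^ j) ^ i) (n + 1)]
      refine sum_congr rfl fun i _ => ?_
      rw [← pow_mul, mul_comm j]
      rfl
    rw [h2]
    by_cases hj0 : j = 0
    · subst hj0
      simp
    · rw [if_neg hj0]
      have h3 : (ω⁻¹) ^ j ≠ 1 := by
        intro h
        rw [inv_pow, inv_eq_one] at h
        exact hω.pow_ne_one_of_pos_of_lt hj0 (mem_range.1 hj) h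
      have h4 : ((ω⁻¹) ^ j) ^ N = 1 := by
        rw [← pow_mul, mul_comm, pow_mul, inv_pow, hω.pow_eq_one, inv_one, one_pow]
      have h5 := geom_sum_mul ((ω⁻¹) ^ j) N
      rw [h4, sub_self] at h5
      rcases mul_eq_zero.1 h5 with h6 | h6
      · rw [h6, zero_smul]
      · exact absurd (sub_eq_zero.1 h6) h3
  rw [sum_congr rfl h1, sum_ite_eq' (range N) 0]
  rw [if_pos (mem_range.2 (Nat.pos_of_ne_zero (NeZero.ne N))), smul_smul, inv_mul_cancel₀ hN, one_smul]

theorem pr_lie (hω : ω ^ N = 1) (hσ : ∀ x, σ^[N] x = x) (i b : ZMod N) (z u : D) :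
    pr σ ω i ⁅z, pr σ ω b u⁆ = ⁅pr σ ω (i - b) z, pr σ ω b u⁆ := by
  have hω0 : ω ≠ 0 := by
    intro h
    rw [h, zero_pow (NeZero.ne N)] at hω
    exact zero_ne_one hω
  rw [pr_apply, pr_apply σ ω (i - b), smul_lie, sum_lie]
  congr 1
  refine sum_congr rfl fun j _ => ?_
  rw [iter_lie, iter_pr hω hσ, lie_smul, smul_lie, smul_smul]
  congr 1
  have h1 : (ω⁻¹) ^ i.val = (ω⁻¹) ^ (i - b).val * (ω⁻¹) ^ b.val := by
    have h2 : i.val = ((i - b).val + b.val) % N := by
      rw [← ZMod.val_add, sub_add_cancel]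
    have h3 : (ω⁻¹) ^ N = 1 := by rw [inv_pow, hω, inv_one]
    rw [← pow_add, h2]
    exact (pow_eq_pow_mod _ h3).symm
  rw [pow_mul, h1, mul_pow, ← pow_mul, ← pow_mul, mul_assoc, inv_pow ω (b.val * j),
    inv_mul_cancel₀ (pow_ne_zero _ hω0), mul_one]

end Pool.Agent.N817.PL.Proj
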