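import Pool.Agent.H86.FMLib.N817.PL.Chi
import Pool.Agent.H86.FMLib.N817.PL.Proj

/-!
# Replacing an automorphism by an automorphism of finite order with the same fixed part
-/

set_option autoImplicit false
set_option linter.unusedSectionVars false

namespace Pool.Agent.N817.PL.Aut

open Polynomial Module

theorem crt {Ω : Type*} [Field Ω] (S : Finset Ω) (v : Ω → Ω) (M : ℕ) :
    ∃ q : Polynomial Ω, ∀ γ ∈ S, (X - C γ) ^ M ∣ q - C (v γ) := by
  classical
  obtain ⟨y, hy⟩ := IsDedekindDomain.exists_forall_sub_mem_ideal (R := Polynomial Ω) (s := S)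
    (fun γ => Ideal.span {X - C γ}) (fun _ => M) (fun γ _ => by
      rw [Ideal.prime_iff_isPrime (by
        rw [Ne, Ideal.span_singleton_eq_bot]
        exact X_sub_C_ne_zero γ), Ideal.span_singleton_prime (X_sub_C_ne_zero γ)]
      exact prime_X_sub_C γ) (fun γ _ δ _ hγδ h => by
      apply hγδ
      have h1 : X - C γ ∈ Ideal.span {X - C δ} := by
        rw [← h]
        exact Ideal.subset_span rfl
      rw [Ideal.mem_span_singleton] at h1
      have h2 := dvd_iff_isRoot.1 h1
      simp at h2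
      exact (sub_eq_zero.1 h2).symm) (fun γ => C (v γ))
  refine ⟨y, fun γ hγ => ?_⟩
  have h1 := hy γ hγ
  rw [Ideal.span_singleton_pow, Ideal.mem_span_singleton] at h1
  exact h1

variable {Ω D : Type*} [Field Ω] [LieRing D] [LieAlgebra Ω D]

theorem gen_lie (σ : D →ₗ⁅Ω⁆ D) (γ δ : Ω) (k : ℕ) : ∀ (a b : ℕ), a + b = k → ∀ x y : D,
    (((σ : D →ₗ[Ω] D) - γ • (1 : End Ω D)) ^ a) x = 0 →
    (((σ : D →ₗ[Ω] D) - δ • (1 : End Ω D)) ^ b) y = 0 →
    (((σ : D →ₗ[Ω] D) - (γ * δ) • (1 : End Ω D)) ^ k) ⁅x, y⁆ = 0 := by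
  induction k with
  | zero =>
    intro a b hab x y hx hy
    obtain ⟨rfl, rfl⟩ : a = 0 ∧ b = 0 := by omega
    have hx' : x = 0 := by simpa using hx
    rw [hx', zero_lie, map_zero]
  | succ k ih =>
    intro a b hab x y hx hy
    rcases Nat.eq_zero_or_pos a with ha | ha
    · subst ha
      have hx' : x = 0 := by simpa using hx
      rw [hx', zero_lie, map_zero]
    rcases Nat.eq_zero_or_pos b with hb | hb
    · subst hb
      have hy' : y = 0 := by simpa using hy
      rw [hy', lie_zero, map_zero]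
    obtain ⟨a, rfl⟩ : ∃ a', a = a' + 1 := ⟨a - 1, by omega⟩
    obtain ⟨b, rfl⟩ : ∃ b', b = b' + 1 := ⟨b - 1, by omega⟩
    set P : End Ω D := (σ : D →ₗ[Ω] D) - γ • (1 : End Ω D) with hP
    set Q : End Ω D := (σ : D →ₗ[Ω] D) - δ • (1 : End Ω D) with hQ
    have h1 : ((σ : D →ₗ[Ω] D) - (γ * δ) • (1 : End Ω D)) ⁅x, y⁆ = ⁅P x, σ y⁆ + γ • ⁅x, Q y⁆ := by
      have e1 : ((σ : D →ₗ[Ω] D) - (γ * δ) • (1 : End Ω D)) ⁅x, y⁆ = σ ⁅x, y⁆ - (γ * δ) • ⁅x, y⁆ := rfl
      have e2 : P x = σ x - γ • x := rfl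
      have e3 : Q y = σ y - δ • y := rfl
      rw [e1, e2, e3, LieHom.map_lie, sub_lie, lie_sub, smul_lie, lie_smul, smul_sub, smul_smul]
      abel
    rw [pow_succ, Module.End.mul_apply, h1, map_add, map_smul]
    have hx1 : (P ^ a) (P x) = 0 := by
      rw [← Module.End.mul_apply, ← pow_succ]
      exact hx
    have hcQ : Commute (Q ^ (b + 1)) (σ : D →ₗ[Ω] D) := by
      apply Commute.pow_left
      exact (Commute.refl _).sub_left ((Commute.one_left _).smul_left _)
    have hy1 : (Q ^ (b + 1)) (σ y) = 0 := by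
      have := congrArg (fun f : End Ω D => f y) hcQ.eq
      simp only [Module.End.mul_apply] at this
      change (Q ^ (b + 1)) ((σ : D →ₗ[Ω] D) y) = 0
      rw [this, hy, map_zero]
    have hy2 : (Q ^ b) (Q y) = 0 := by
      rw [← Module.End.mul_apply, ← pow_succ]
      exact hy
    rw [ih a (b + 1) (by omega) (P x) (σ y) hx1 hy1, ih (a + 1) b (by omega) x (Q y) hx hy2,
      smul_zero, add_zero]

variable [CharZero Ω] [IsAlgClosed Ω] [FiniteDimensional Ω D]

/-- **an automorphism of finite order** which is a polynomial in the injective endomorphism `σ`, acts by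
a scalar on the generalised eigenspaces of `σ`, which is different from `1` unless the eigenvalue is `1`
-/
theorem exists_tau (σ : D →ₗ⁅Ω⁆ D) (hσ : Function.Injective σ) :
    ∃ (N : ℕ) (τ : D →ₗ⁅Ω⁆ D) (q : (Polynomial Ω)) (χ : Ω → Ω), 0 < N ∧
      (∀ x, τ x = aeval (σ : End Ω D) q x) ∧ (∀ x, τ^[N] x = x) ∧
      ∀ γ, ∀ x ∈ End.maxGenEigenspace (σ : End Ω D) γ, τ x = χ γ • x ∧ (x ≠ 0 → χ γ ^ N = 1) ∧
        (x ≠ 0 → χ γ = 1 → γ = 1) := by
  classical
  set S : Set Ω := {γ | End.HasEigenvalue (σ : End Ω D) γ} with hS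
  have hSf : S.Finite := End.finite_hasEigenvalue (σ : End Ω D)
  have hS0 : (0 : Ω) ∉ S := by
    intro h
    obtain ⟨x, hx⟩ := End.HasEigenvalue.exists_hasEigenvector h
    have h1 := hx.apply_eq_smul
    rw [zero_smul] at h1
    exact hx.2 (hσ (by
      rw [map_zero]
      exact h1))
  obtain ⟨N, hN, χ, h1, h2, h3, h4⟩ := Chi.exists_chi S hSf hS0
  obtain ⟨q, hq⟩ := crt hSf.toFinset χ (finrank Ω D)
  have hgen : ∀ γ, ∀ x ∈ End.maxGenEigenspace (σ : End Ω D) γ, x ≠ 0 → γ ∈ S := by
    intro γ x hx hx0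
    by_contra h
    have h5 : End.maxGenEigenspace (σ : End Ω D) γ = ⊥ := by
      by_contra h6
      apply h
      exact (show End.HasUnifEigenvalue (σ : End Ω D) γ ⊤ from h6).lt zero_lt_one
    rw [h5, Submodule.mem_bot] at hx
    exact hx0 hx
  have hact : ∀ γ, ∀ x ∈ End.maxGenEigenspace (σ : End Ω D) γ,
      aeval (σ : End Ω D) q x = χ γ • x := by
    intro γ x hx
    by_cases hx0 : x = 0
    · rw [hx0, map_zero, smul_zero]
    have hγ := hgen γ x hx hx0
    obtain ⟨t, ht⟩ := hq γ (hSf.mem_toFinset.2 hγ)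
    have h5 : (((σ : End Ω D) - algebraMap Ω (End Ω D) γ) ^ finrank Ω D) x = 0 := by
      rw [End.maxGenEigenspace_eq_genEigenspace_finrank, End.mem_genEigenspace_nat] at hx
      rw [Algebra.algebraMap_eq_smul_one]
      exact hx
    have h6 := congrArg (aeval (σ : End Ω D)) ht
    rw [map_sub, aeval_C, mul_comm, map_mul, map_pow, map_sub, aeval_X, aeval_C] at h6
    have h7 := congrArg (fun f : End Ω D => f x) h6
    simp only [LinearMap.sub_apply, Module.End.mul_apply] at h7
    rw [h5, map_zero, sub_eq_zero] at h7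
    rw [h7]
    rfl
  have htop : ⨆ γ, End.maxGenEigenspace (σ : End Ω D) γ = ⊤ :=
    End.iSup_maxGenEigenspace_eq_top _
  have hlie : ∀ x y : D, aeval (σ : End Ω D) q ⁅x, y⁆ =
      ⁅aeval (σ : End Ω D) q x, aeval (σ : End Ω D) q y⁆ := by
    intro x y
    have hx : x ∈ ⨆ γ, End.maxGenEigenspace (σ : End Ω D) γ := by
      rw [htop]
      trivial
    have hy : y ∈ ⨆ γ, End.maxGenEigenspace (σ : End Ω D) γ := by
      rw [htop]
      trivial
    induction hx using Submodule.iSup_induction' with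
    | mem γ x hx =>
      induction hy using Submodule.iSup_induction' with
      | mem δ y hy =>
        rw [hact γ x hx, hact δ y hy, smul_lie, lie_smul, smul_smul]
        by_cases hxy : ⁅x, y⁆ = 0
        · rw [hxy, map_zero, smul_zero]
        have hx0 : x ≠ 0 := by
          rintro rfl
          exact hxy (zero_lie _)
        have hy0 : y ≠ 0 := by
          rintro rfl
          exact hxy (lie_zero _)
        have h5 : ⁅x, y⁆ ∈ End.maxGenEigenspace (σ : End Ω D) (γ * δ) := by
          rw [End.mem_maxGenEigenspace] at hx hy ⊢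
          obtain ⟨a, ha⟩ := hx
          obtain ⟨b, hb⟩ := hy
          exact ⟨a + b, gen_lie σ γ δ (a + b) a b rfl x y ha hb⟩
        rw [hact _ _ h5, h3 γ (hgen γ x hx hx0) δ (hgen δ y hy hy0)]
      | zero => rw [lie_zero, map_zero, lie_zero]
      | add y z _ _ hy hz => rw [lie_add, map_add, map_add, lie_add, hy, hz]
    | zero => rw [zero_lie, map_zero, zero_lie]
    | add x z _ _ hx hz => rw [add_lie, map_add, map_add, add_lie, hx, hz]
  let τ : D →ₗ⁅Ω⁆ D := { (aeval (σ : End Ω D) q : D →ₗ[Ω] D) with map_lie' := fun {x y} => hlie x y }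
  have hτ : ∀ x, τ x = aeval (σ : End Ω D) q x := fun x => rfl
  refine ⟨N, τ, q, χ, hN, hτ, ?_, ?_⟩
  · intro x
    have hit : ∀ x, τ^[N] x = ((τ : D →ₗ[Ω] D) ^ N) x := fun x => (Module.End.pow_apply _ N x).symm
    rw [hit]
    have hx : x ∈ ⨆ γ, End.maxGenEigenspace (σ : End Ω D) γ := by
      rw [htop]
      trivial
    induction hx using Submodule.iSup_induction' with
    | mem γ x hx =>
      have h5 : ∀ j : ℕ, τ^[j] x = χ γ ^ j • x := by
        intro j
        induction j with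
        | zero => simp
        | succ j ih =>
          rw [Function.iterate_succ_apply', ih, map_smul, hτ, hact γ x hx, smul_smul, pow_succ]
      rw [← hit, h5]
      by_cases hx0 : x = 0
      · rw [hx0, smul_zero]
      rw [h1 γ (hgen γ x hx hx0), one_smul]
    | zero => exact map_zero _
    | add x z _ _ hx hz => rw [map_add, hx, hz]
  · intro γ x hx
    exact ⟨hact γ x hx, fun hx0 => h1 γ (hgen γ x hx hx0), fun hx0 => h2 γ (hgen γ x hx hx0)⟩

end Pool.Agent.N817.PL.Aut
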