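import Mathlib

/-!
# Algebraic subsets of positive measure of a compact group contain cosets of open subgroups
-/

set_option autoImplicit false
set_option linter.unusedSectionVars false

namespace Pool.Agent.N817.PL.Coset

open MeasureTheory Pointwise

section stab

variable {G : Type*} [Group G] [MeasurableSpace G] [MeasurableMul G]

theorem finite_stab (μ : Measure G) [μ.IsMulLeftInvariant] [IsFiniteMeasure μ] (Z : Set G)
    (hZm : MeasurableSet Z) (hZ0 : μ Z ≠ 0) (hZ : ∀ h : G, μ (Z ∩ h • Z) ≠ 0 → h • Z = Z) :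
    Finite (G ⧸ MulAction.stabilizer G Z) := by
  classical
  by_contra hfin
  rw [not_finite_iff_infinite] at hfin
  have hZtop : μ Z ≠ ⊤ := measure_ne_top μ Z
  -- choose many cosets
  obtain ⟨m, hm⟩ : ∃ m : ℕ, μ Set.univ < m * μ Z := by
    obtain ⟨m, hm⟩ := ENNReal.exists_nat_mul_gt hZ0 (measure_ne_top μ Set.univ)
    exact ⟨m, hm⟩
  obtain ⟨S, hS⟩ := Infinite.exists_subset_card_eq (G ⧸ MulAction.stabilizer G Z) m
  have h1 : μ (⋃ q ∈ S, (Quotient.out q : G) • Z) = ∑ q ∈ S, μ ((Quotient.out q : G) • Z) := by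
    apply measure_biUnion_finset₀
    · intro q _ q' _ hqq'
      change μ _ = 0
      by_contra h2
      apply hqq'
      have h3 : μ (Z ∩ ((Quotient.out q : G)⁻¹ * (Quotient.out q' : G)) • Z) ≠ 0 := by
        have h4 : (Quotient.out q : G) • (Z ∩ ((Quotient.out q : G)⁻¹ * (Quotient.out q' : G)) • Z) =
            (Quotient.out q : G) • Z ∩ (Quotient.out q' : G) • Z := by
          rw [Set.smul_set_inter, smul_smul, mul_inv_cancel_left]
        rw [← h4, measure_smul] at h2
        exact h2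
      have h5 := hZ _ h3
      have h6 : (Quotient.out q : G)⁻¹ * (Quotient.out q' : G) ∈ MulAction.stabilizer G Z := h5
      rw [← QuotientGroup.eq] at h6
      simpa using h6
    · intro q _
      exact (hZm.const_smul _).nullMeasurableSet
  have h2 : ∑ q ∈ S, μ ((Quotient.out q : G) • Z) = m * μ Z := by
    simp only [measure_smul]
    rw [Finset.sum_const, hS, nsmul_eq_mul]
  have h3 : μ (⋃ q ∈ S, (Quotient.out q : G) • Z) ≤ μ Set.univ := measure_mono (Set.subset_univ _)
  rw [h1, h2] at h3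
  exact absurd hm (not_lt.2 h3)

end stab

section noeth

variable {G F : Type*} [Group G] [TopologicalSpace G] [IsTopologicalGroup G] [MeasurableSpace G]
  [BorelSpace G] [Field F] [TopologicalSpace F] [T1Space F]

/-- evaluation at `g` -/
def ev (𝒜 : Subalgebra F (G → F)) (g : G) : 𝒜 →+* F :=
  (Pi.evalRingHom (fun _ : G => F) g).comp 𝒜.val.toRingHom

/-- the zero set of a set of functions -/
def V (𝒜 : Subalgebra F (G → F)) (I : Ideal 𝒜) : Set G := {g | ∀ f ∈ I, (f : G → F) g = 0}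

theorem isClosed_V (𝒜 : Subalgebra F (G → F)) (hc : ∀ f ∈ 𝒜, Continuous f) (I : Ideal 𝒜) :
    IsClosed (V 𝒜 I) := by
  have h1 : V 𝒜 I = ⋂ f ∈ I, (fun g => (f : G → F) g) ⁻¹' {0} := by
    ext g
    simp [V]
  rw [h1]
  exact isClosed_biInter fun f _ => isClosed_singleton.preimage (hc f f.2)

theorem exists_coset (μ : Measure G) [μ.IsMulLeftInvariant] [IsFiniteMeasure μ]
    (𝒜 : Subalgebra F (G → F)) [IsNoetherianRing 𝒜] (hc : ∀ f ∈ 𝒜, Continuous f)
    (ht : ∀ f ∈ 𝒜, ∀ h : G, (fun g => f (h * g)) ∈ 𝒜) (I₀ : Ideal 𝒜) (h0 : μ (V 𝒜 I₀) ≠ 0) :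
    ∃ z : G, ∃ H : Subgroup G, IsOpen (H : Set G) ∧ ∀ h ∈ H, h * z ∈ V 𝒜 I₀ := by
  classical
  obtain ⟨I, ⟨hI₀, hI0⟩, hmax⟩ := set_has_maximal_iff_noetherian.2
    (inferInstance : IsNoetherianRing 𝒜) {I : Ideal 𝒜 | I₀ ≤ I ∧ μ (V 𝒜 I) ≠ 0} ⟨I₀, le_rfl, h0⟩
  set Z := V 𝒜 I with hZ
  have hZcl : IsClosed Z := isClosed_V 𝒜 hc I
  have key : ∀ h : G, μ (Z ∩ h • Z) ≠ 0 → Z ⊆ h • Z := by
    intro h hh
    -- the translated ideal
    let T : Set 𝒜 := {f | ∃ f' ∈ I, f = ⟨fun g => (f' : G → F) (h⁻¹ * g), ht f' f'.2 h⁻¹⟩}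
    let J : Ideal 𝒜 := I ⊔ Ideal.span T
    have hJ : Z ∩ h • Z ⊆ V 𝒜 J := by
      rintro g ⟨hg1, hg2⟩ f hf
      rw [Set.mem_smul_set_iff_inv_smul_mem, smul_eq_mul] at hg2
      have h2 : J ≤ RingHom.ker (ev 𝒜 g) := by
        refine sup_le (fun f hf => hg1 f hf) (Ideal.span_le.2 ?_)
        rintro _ ⟨f', hf', rfl⟩
        exact hg2 f' hf'
      exact h2 hf
    have h1 : ¬ I < J := hmax J ⟨hI₀.trans le_sup_left, fun h2 => hh (measure_mono_null hJ h2)⟩
    have h2 : J = I := (le_sup_left.eq_of_not_lt h1).symm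
    intro g hg
    rw [Set.mem_smul_set_iff_inv_smul_mem, smul_eq_mul]
    intro f hf
    have h3 : (⟨fun g => (f : G → F) (h⁻¹ * g), ht f f.2 h⁻¹⟩ : 𝒜) ∈ J :=
      Submodule.mem_sup_right (Ideal.subset_span ⟨f, hf, rfl⟩)
    rw [h2] at h3
    exact hg _ h3
  have key2 : ∀ h : G, μ (Z ∩ h • Z) ≠ 0 → h • Z = Z := by
    intro h hh
    apply Set.Subset.antisymm _ (key h hh)
    have h1 : μ (Z ∩ h⁻¹ • Z) ≠ 0 := by
      have h2 : h • (Z ∩ h⁻¹ • Z) = Z ∩ h • Z := by
        rw [Set.smul_set_inter, smul_inv_smul, Set.inter_comm]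
      rw [← h2, measure_smul] at hh
      exact hh
    have h2 := key h⁻¹ h1
    intro x hx
    obtain ⟨y, hy, rfl⟩ := hx
    obtain ⟨z, hz, hzy⟩ := h2 hy
    have h3 : h • y = z := by
      rw [← hzy]
      simp
    change h • y ∈ Z
    rw [h3]
    exact hz
  have hfin := finite_stab μ Z hZcl.measurableSet hI0 key2
  have hclosed : IsClosed ((MulAction.stabilizer G Z : Subgroup G) : Set G) := by
    have h1 : ((MulAction.stabilizer G Z : Subgroup G) : Set G) =
        (⋂ z ∈ Z, (fun h => h * z) ⁻¹' Z) ∩ ⋂ z ∈ Z, (fun h => h⁻¹ * z) ⁻¹' Z := by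
      ext h
      constructor
      · intro hh
        have hh' : h • Z = Z := hh
        refine ⟨?_, ?_⟩
        · rw [Set.mem_iInter₂]
          intro z hz
          change h * z ∈ Z
          rw [← hh']
          exact ⟨z, hz, rfl⟩
        · rw [Set.mem_iInter₂]
          intro z hz
          change h⁻¹ * z ∈ Z
          rw [← smul_eq_mul, ← Set.mem_smul_set_iff_inv_smul_mem, hh']
          exact hz
      · rintro ⟨h1, h2⟩
        rw [Set.mem_iInter₂] at h1 h2
        change h • Z = Z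
        apply Set.Subset.antisymm
        · rintro _ ⟨z, hz, rfl⟩
          exact h1 z hz
        · intro z hz
          rw [Set.mem_smul_set_iff_inv_smul_mem]
          exact h2 z hz
    rw [h1]
    refine IsClosed.inter ?_ ?_
    · exact isClosed_biInter fun z _ => hZcl.preimage (continuous_id.mul continuous_const)
    · exact isClosed_biInter fun z _ => hZcl.preimage (continuous_inv.mul continuous_const)
  have hfi : (MulAction.stabilizer G Z).FiniteIndex := Subgroup.finiteIndex_of_finite_quotient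
  have hopen := Subgroup.isOpen_of_isClosed_of_finiteIndex (MulAction.stabilizer G Z) hclosed
  have hne : Z.Nonempty := by
    rw [Set.nonempty_iff_ne_empty]
    intro h
    rw [h, measure_empty] at hI0
    exact hI0 rfl
  obtain ⟨z, hz⟩ := hne
  refine ⟨z, MulAction.stabilizer G Z, hopen, fun h hh => ?_⟩
  have h1 : h * z ∈ Z := by
    have hh' : h • Z = Z := hh
    rw [← hh']
    exact ⟨z, hz, rfl⟩
  intro f hf
  exact h1 f (hI₀ hf)

end noeth

end Pool.Agent.N817.PL.Coset
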