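import Pool.Agent.H86.FMLib.N817.PL.Iso
import Pool.Agent.H86.FMLib.N817.PL.Coset

/-!
# The main argument for profinite groups
-/

set_option autoImplicit false
set_option linter.unusedSectionVars false

namespace Pool.Agent.N817.PL.Top

open Pool.Agent.N817.PL.DD Pool.Agent.N817.PL.Nrm Pool.Agent.N817.PL.Iso Filter Topology MeasureTheory

section crd

variable {F : Type*} [Field F] {n : ℕ} {G : Type*} [Group G]

/-- the algebra generated by the matrix coefficients -/
def crd (r : G →* Mat n F) : Subalgebra F (G → F) :=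
  Algebra.adjoin F (Set.range fun ij : Fin n × Fin n => fun g => r g ij.1 ij.2)

theorem noeth (r : G →* Mat n F) : IsNoetherianRing (crd r) := by
  have h1 : (crd r).FG := by
    refine Subalgebra.fg_def.2 ⟨_, Set.finite_range _, rfl⟩
  have h2 : Algebra.FiniteType F (crd r) := (crd r).fg_iff_finiteType.1 h1
  exact Algebra.FiniteType.isNoetherianRing F (crd r)

theorem coef_mem (r : G →* Mat n F) (i j : Fin n) : (fun g => r g i j) ∈ crd r :=
  Algebra.subset_adjoin ⟨(i, j), rfl⟩

theorem trans_mem (r : G →* Mat n F) (f : G → F) (hf : f ∈ crd r) (h : G) :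
    (fun g => f (h * g)) ∈ crd r := by
  induction hf using Algebra.adjoin_induction with
  | mem f hf =>
    obtain ⟨⟨i, j⟩, rfl⟩ := hf
    have h1 : (fun g => r (h * g) i j) = ∑ l, r h i l • fun g => r g l j := by
      ext g
      rw [map_mul, Matrix.mul_apply, Finset.sum_apply]
      rfl
    simp only
    rw [h1]
    exact (crd r).sum_mem fun l _ => (crd r).smul_mem (coef_mem r l j) _
  | algebraMap c => exact (crd r).algebraMap_mem c
  | add f g _ _ hf hg => exact (crd r).add_mem hf hg
  | mul f g _ _ hf hg => exact (crd r).mul_mem hf hg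

/-- all entries of the matrix valued function are in the coordinate algebra -/
def InC (r : G →* Mat n F) (M : G → Mat n F) : Prop := ∀ i j, (fun g => M g i j) ∈ crd r

theorem InC.mul {r : G →* Mat n F} {M M' : G → Mat n F} (h : InC r M) (h' : InC r M') :
    InC r (fun g => M g * M' g) := by
  intro i j
  have h1 : (fun g => (M g * M' g) i j) = ∑ l, (fun g => M g i l) * (fun g => M' g l j) := by
    ext g
    rw [Matrix.mul_apply, Finset.sum_apply]
    rfl
  rw [h1]
  exact (crd r).sum_mem fun l _ => (crd r).mul_mem (h i l) (h' l j)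

theorem InC.one {r : G →* Mat n F} : InC r (fun _ => 1) := by
  intro i j
  exact (crd r).algebraMap_mem ((1 : Mat n F) i j)

theorem InC.pow {r : G →* Mat n F} {M : G → Mat n F} (h : InC r M) (N : ℕ) :
    InC r (fun g => M g ^ N) := by
  induction N with
  | zero =>
    simp only [pow_zero]
    exact InC.one
  | succ N ih =>
    simp only [pow_succ]
    exact ih.mul h

theorem InC.DD {r : G →* Mat n F} {M : G → Mat n F} (h : InC r M) : InC r (fun g => DD (M g)) := by
  unfold DD.DD
  apply InC.pow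
  intro i j
  have h1 : (fun g => ((n : F) • M g - (M g).trace • (1 : Mat n F)) i j) =
      (n : F) • (fun g => M g i j) - (1 : Mat n F) i j • ∑ l, (fun g => M g l l) := by
    ext g
    rw [Pi.sub_apply, Pi.smul_apply, Pi.smul_apply, Finset.sum_apply, Matrix.sub_apply,
      Matrix.smul_apply, Matrix.smul_apply, smul_eq_mul (a := (1 : Mat n F) i j), mul_comm ((1 : Mat n F) i j)]
    rfl
  rw [h1]
  exact (crd r).sub_mem ((crd r).smul_mem (h i j) _)
    ((crd r).smul_mem ((crd r).sum_mem fun l _ => h l l) _)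

end crd

section top

variable {G : Type*} [Group G] [TopologicalSpace G] [IsTopologicalGroup G] [CompactSpace G]
  [TotallyDisconnectedSpace G] [T2Space G] [MeasurableSpace G] [BorelSpace G]

attribute [local instance] nring nalg

theorem cont_crd {F : Type*} [Field F] [TopologicalSpace F] [IsTopologicalRing F] {n : ℕ}
    (r : G →* Mat n F) (hr : Continuous r) (f : G → F) (hf : f ∈ crd r) : Continuous f := by
  induction hf using Algebra.adjoin_induction with
  | mem f hf =>
    obtain ⟨⟨i, j⟩, rfl⟩ := hf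
    exact hr.matrix_elem i j
  | algebraMap c => exact continuous_const
  | add f g _ _ hf hg => exact hf.add hg
  | mul f g _ _ hf hg => exact hf.mul hg

/-- a small open normal subgroup -/
theorem exists_small {F : Type*} [NormedField F] [IsUltrametricDist F] {n : ℕ} (r : G →* Mat n F)
    (hr : Continuous r) (O : Set G) (hO : IsOpen O) (h1 : (1 : G) ∈ O) :
    ∃ U : OpenNormalSubgroup G, ((U : Subgroup G) : Set G) ⊆ O ∧
      ∀ u ∈ (U : Subgroup G), ‖r u - 1‖ ≤ 1 / 4 := by
  have h2 : IsOpen {g : G | ‖r g - 1‖ < 1 / 4} :=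
    isOpen_lt ((hr.sub continuous_const).norm) continuous_const
  obtain ⟨U, hU⟩ := ProfiniteGrp.exist_openNormalSubgroup_sub_open_nhds_of_one (hO.inter h2)
    ⟨h1, by
      change ‖r 1 - 1‖ < 1 / 4
      rw [map_one, sub_self, norm_zero]
      norm_num⟩
  exact ⟨U, fun u hu => (hU hu).1, fun u hu => (hU hu).2.le⟩

theorem bounded {F : Type*} [NormedField F] [IsUltrametricDist F] {n : ℕ} (r : G →* Mat n F)
    (hr : Continuous r) : ∃ C : ℝ, ∀ g, ‖r g‖ ≤ C := by
  obtain ⟨C, hC⟩ := (isCompact_range hr).isBounded.exists_norm_le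
  exact ⟨C, fun g => hC _ ⟨g, rfl⟩⟩

/-- **Potentially abelian.** -/
theorem pot_ab (p : ℕ) [hp : Fact p.Prime] {F : Type*} [NormedField F] [NormedAlgebra ℚ_[p] F]
    [CompleteSpace F] [IsUltrametricDist F] {n : ℕ} (hn : 0 < n) (r : G →* Mat n F)
    (hr : Continuous r) (hirr : Irr r) (μ : Measure G) [IsFiniteMeasure μ] [μ.IsMulLeftInvariant]
    (h : ∀ N : ℕ, 0 < N → (∀ g, ‖r g ^ N - 1‖ ≤ 1 / 4) → μ {g | DD (r g ^ N) = 0} ≠ 0) :
    ∃ U : OpenNormalSubgroup G, ∀ u ∈ (U : Subgroup G), ∀ v ∈ (U : Subgroup G),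
      r u * r v = r v * r u := by
  obtain ⟨C, hC⟩ := bounded r hr
  obtain ⟨U₁, -, hU₁⟩ := exists_small r hr Set.univ isOpen_univ (Set.mem_univ _)
  have hU₁n : (U₁ : Subgroup G).Normal := U₁.isNormal'
  have hfi : ∀ U : OpenNormalSubgroup G, (U : Subgroup G).index ≠ 0 := by
    intro U
    have : Finite (G ⧸ (U : Subgroup G)) := Subgroup.quotient_finite_of_isOpen _ U.isOpen'
    exact (Subgroup.finiteIndex_of_finite_quotient (H := (U : Subgroup G))).index_ne_zero
  set N := (U₁ : Subgroup G).index with hN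
  have hN0 : 0 < N := Nat.pos_of_ne_zero (hfi U₁)
  have hpow : ∀ g, ‖r g ^ N - 1‖ ≤ 1 / 4 := by
    intro g
    rw [← map_pow]
    exact hU₁ _ (Subgroup.pow_index_mem (U₁ : Subgroup G) g)
  -- the algebraic subset
  have hnoeth := noeth r
  let T : Set (crd r) := Set.range fun ij : Fin n × Fin n =>
    (⟨fun g => DD (r g ^ N) ij.1 ij.2, (InC.DD (InC.pow (fun i j => coef_mem r i j) N)) ij.1 ij.2⟩ : crd r)
  have hV : Coset.V (crd r) (Ideal.span T) = {g | DD (r g ^ N) = 0} := by
    ext g
    constructor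
    · intro hg
      change DD (r g ^ N) = 0
      ext i j
      exact hg _ (Ideal.subset_span ⟨(i, j), rfl⟩)
    · intro hg
      have hg' : DD (r g ^ N) = 0 := hg
      have h1 : Ideal.span T ≤ RingHom.ker (Coset.ev (crd r) g) := by
        rw [Ideal.span_le]
        rintro _ ⟨⟨i, j⟩, rfl⟩
        change DD (r g ^ N) i j = 0
        rw [hg']
        rfl
      exact fun f hf => h1 hf
  obtain ⟨z, H, hH, hz⟩ := Coset.exists_coset μ (crd r) (cont_crd r hr) (trans_mem r) (Ideal.span T)
    (by
      rw [hV]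
      exact h N hN0 hpow)
  rw [hV] at hz
  -- a small normal subgroup
  obtain ⟨U, hUO, hU⟩ := exists_small r hr ((fun g => z * g * z⁻¹) ⁻¹' (H : Set G))
    (hH.preimage (by fun_prop)) (by simp)
  have hUn : (U : Subgroup G).Normal := U.isNormal'
  refine ⟨U, ?_⟩
  obtain ⟨w, hw0, hw⟩ := Abs.common p hn r hC (U : Subgroup G) (fun g v hv => hUn.conj_mem v hv g)
    hU z hN0 (Nat.pos_of_ne_zero (hfi U)) (Subgroup.pow_index_mem (U : Subgroup G) z) (by
      intro u hu
      have h1 : z * u = (z * u * z⁻¹) * z := by group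
      rw [h1]
      exact hz _ (hUO hu))
  intro u hu v hv
  exact commutes r (U : Subgroup G) (fun g v hv => hUn.conj_mem v hv g) hirr w hw0 hw u hu v hv

end top

end Pool.Agent.N817.PL.Top
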