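import Pool.Agent.H86.FMLib.N817.PL.Abs3
import Pool.Agent.H86.FMLib.N817.PL.Top

/-!
# The eigenvalues are roots of finitely many characters: traces take finitely many values
-/

set_option autoImplicit false
set_option linter.unusedSectionVars false

namespace Pool.Agent.N817.PL.Cond

open Pool.Agent.N817.PL.DD Pool.Agent.N817.PL.Nrm Filter Topology MeasureTheory Polynomial

section traces

variable {Ω : Type*} [Field Ω] [IsAlgClosed Ω] {n : ℕ}

theorem spec_root {B : Mat n Ω} {q : Polynomial Ω} (h : IsNilpotent (aeval B q)) {a : Ω}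
    (ha : a ∈ spectrum Ω B) : q.eval a = 0 := by
  obtain ⟨m, hm⟩ := h
  have h1 : q.eval a ∈ spectrum Ω (aeval B q) := spectrum.subset_polynomial_aeval B q ⟨a, ha, rfl⟩
  have h2 := spectrum.pow_mem_pow _ m h1
  rw [hm] at h2
  rcases Nat.eq_zero_or_pos n with hn | hn
  · subst hn
    exfalso
    have : Subsingleton (Mat 0 Ω) := inferInstance
    rw [spectrum.mem_iff] at ha
    exact ha (isUnit_of_subsingleton _)
  · have : Nonempty (Fin n) := ⟨⟨0, hn⟩⟩
    rw [spectrum.zero_eq] at h2
    exact eq_zero_of_pow_eq_zero h2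

theorem finite_traces (q : Polynomial Ω) (hq : q ≠ 0) {j : ℕ} (hj : 0 < j) :
    {t : Ω | ∃ B : Mat n Ω, IsNilpotent (aeval B q) ∧ t = (B ^ j).trace}.Finite := by
  classical
  let Λ : Finset Ω := q.roots.toFinset.image (· ^ j)
  let T : Finset Ω := (Λ.sym n).image fun m : Sym Ω n => (m : Multiset Ω).sum
  refine T.finite_toSet.subset ?_
  rintro _ ⟨B, hB, rfl⟩
  have h1 : ∀ a ∈ (B ^ j).charpoly.roots, a ∈ Λ := by
    intro a ha
    have h2 : a ∈ spectrum Ω (B ^ j) := by
      rw [Matrix.mem_spectrum_iff_isRoot_charpoly]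
      exact isRoot_of_mem_roots ha
    rw [spectrum.map_pow_of_pos _ hj] at h2
    obtain ⟨b, hb, rfl⟩ := h2
    refine Finset.mem_image.2 ⟨b, ?_, rfl⟩
    rw [Multiset.mem_toFinset, mem_roots hq]
    exact spec_root hB hb
  have h2 : Multiset.card (B ^ j).charpoly.roots = n := by
    rw [← (IsAlgClosed.splits (B ^ j).charpoly).natDegree_eq_card_roots,
      Matrix.charpoly_natDegree_eq_dim, Fintype.card_fin]
  refine Finset.mem_coe.2 (Finset.mem_image.2 ⟨Sym.mk (B ^ j).charpoly.roots h2, ?_, ?_⟩)
  · exact Finset.mem_sym_iff.2 h1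
  · rw [Matrix.trace_eq_sum_roots_charpoly]
    rfl

end traces

section crd2

variable {F : Type*} [Field F] {n k : ℕ} {G : Type*} [Group G]

/-- the algebra generated by the matrix coefficients and the characters -/
def crd2 (r : G →* Mat n F) (ψ : Fin k → (G →* F)) : Subalgebra F (G → F) :=
  Algebra.adjoin F (Set.range (fun ij : Fin n × Fin n => fun g => r g ij.1 ij.2) ∪
    Set.range fun i : Fin k => fun g => ψ i g)

variable {r : G →* Mat n F} {ψ : Fin k → (G →* F)}

theorem noeth2 : IsNoetherianRing (crd2 r ψ) := by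
  have h1 : (crd2 r ψ).FG := by
    refine Subalgebra.fg_def.2 ⟨_, (Set.finite_range _).union (Set.finite_range _), rfl⟩
  have h2 : Algebra.FiniteType F (crd2 r ψ) := (crd2 r ψ).fg_iff_finiteType.1 h1
  exact Algebra.FiniteType.isNoetherianRing F (crd2 r ψ)

theorem coef_mem2 (i j : Fin n) : (fun g => r g i j) ∈ crd2 r ψ :=
  Algebra.subset_adjoin (Or.inl ⟨(i, j), rfl⟩)

theorem char_mem2 (i : Fin k) : (fun g => ψ i g) ∈ crd2 r ψ :=
  Algebra.subset_adjoin (Or.inr ⟨i, rfl⟩)

theorem trans_mem2 (f : G → F) (hf : f ∈ crd2 r ψ) (h : G) :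
    (fun g => f (h * g)) ∈ crd2 r ψ := by
  induction hf using Algebra.adjoin_induction with
  | mem f hf =>
    rcases hf with ⟨⟨i, j⟩, rfl⟩ | ⟨i, rfl⟩
    · have h1 : (fun g => r (h * g) i j) = ∑ l, r h i l • fun g => r g l j := by
        ext g
        rw [map_mul, Matrix.mul_apply, Finset.sum_apply]
        rfl
      simp only
      rw [h1]
      exact (crd2 r ψ).sum_mem fun l _ => (crd2 r ψ).smul_mem (coef_mem2 l j) _
    · have h1 : (fun g => ψ i (h * g)) = ψ i h • fun g => ψ i g := by
        ext g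
        rw [map_mul]
        rfl
      simp only
      rw [h1]
      exact (crd2 r ψ).smul_mem (char_mem2 i) _
  | algebraMap c => exact (crd2 r ψ).algebraMap_mem c
  | add f g _ _ hf hg => exact (crd2 r ψ).add_mem hf hg
  | mul f g _ _ hf hg => exact (crd2 r ψ).mul_mem hf hg

/-- all entries of the matrix valued function are in the coordinate algebra -/
def InC (r : G →* Mat n F) (ψ : Fin k → (G →* F)) (M : G → Mat n F) : Prop :=
  ∀ i j, (fun g => M g i j) ∈ crd2 r ψ

theorem InC.mul {M M' : G → Mat n F} (h : InC r ψ M) (h' : InC r ψ M') :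
    InC r ψ (fun g => M g * M' g) := by
  intro i j
  have h1 : (fun g => (M g * M' g) i j) = ∑ l, (fun g => M g i l) * (fun g => M' g l j) := by
    ext g
    rw [Matrix.mul_apply, Finset.sum_apply]
    rfl
  rw [h1]
  exact (crd2 r ψ).sum_mem fun l _ => (crd2 r ψ).mul_mem (h i l) (h' l j)

theorem InC.one : InC r ψ (fun _ => 1) := by
  intro i j
  exact (crd2 r ψ).algebraMap_mem ((1 : Mat n F) i j)

theorem InC.pow {M : G → Mat n F} (h : InC r ψ M) (N : ℕ) : InC r ψ (fun g => M g ^ N) := by
  induction N with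
  | zero =>
    simp only [pow_zero]
    exact InC.one
  | succ N ih =>
    simp only [pow_succ]
    exact ih.mul h

theorem InC.sub {M M' : G → Mat n F} (h : InC r ψ M) (h' : InC r ψ M') :
    InC r ψ (fun g => M g - M' g) := by
  intro i j
  exact (crd2 r ψ).sub_mem (h i j) (h' i j)

theorem InC.scalar {f : G → F} (hf : f ∈ crd2 r ψ) :
    InC r ψ (fun g => algebraMap F (Mat n F) (f g)) := by
  intro i j
  by_cases h : i = j
  · subst h
    have h1 : (fun g => algebraMap F (Mat n F) (f g) i i) = f := by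
      ext g
      simp [Matrix.algebraMap_matrix_apply]
    rw [h1]
    exact hf
  · have h1 : (fun g => algebraMap F (Mat n F) (f g) i j) = 0 := by
      ext g
      simp [Matrix.algebraMap_matrix_apply, h]
    rw [h1]
    exact (crd2 r ψ).zero_mem

/-- this matrix is zero if and only if all eigenvalues of `A` are among the `c i` -/
noncomputable def PP (A : Mat n F) (c : Fin k → F) : Mat n F := aeval A (∏ i, (X - C (c i))) ^ n

theorem InC.PP (m N : ℕ) : InC r ψ (fun g => PP (r g ^ m) (fun i => ψ i g ^ N)) := by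
  unfold Cond.PP
  apply InC.pow
  have h1 : ∀ s : Finset (Fin k), InC r ψ (fun g => aeval (r g ^ m) (∏ i ∈ s, (X - C (ψ i g ^ N)))) := by
    intro s
    induction s using Finset.induction_on with
    | empty =>
      simp only [Finset.prod_empty, map_one]
      exact InC.one
    | insert i s hi ih =>
      simp only [Finset.prod_insert hi, map_mul, map_sub, aeval_X, aeval_C]
      refine InC.mul (InC.sub (InC.pow (fun i j => coef_mem2 i j) m) ?_) ih
      have h2 : (fun g => ψ i g ^ N) ∈ crd2 r ψ := (crd2 r ψ).pow_mem (char_mem2 i) N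
      exact InC.scalar h2
  exact h1 _

theorem cont_crd2 [TopologicalSpace F] [IsTopologicalRing F] [TopologicalSpace G]
    (hr : Continuous r) (hψ : ∀ i, Continuous (ψ i)) (f : G → F) (hf : f ∈ crd2 r ψ) :
    Continuous f := by
  induction hf using Algebra.adjoin_induction with
  | mem f hf =>
    rcases hf with ⟨⟨i, j⟩, rfl⟩ | ⟨i, rfl⟩
    · exact hr.matrix_elem i j
    · exact hψ i
  | algebraMap c => exact continuous_const
  | add f g _ _ hf hg => exact hf.add hg
  | mul f g _ _ hf hg => exact hf.mul hg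

end crd2

end Pool.Agent.N817.PL.Cond
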