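import Pool.Agent.H86.FMLib.N817.PL.DD

/-!
# Interpolation between the powers of an isoclinic matrix and its semisimple part
-/

set_option autoImplicit false
set_option linter.unusedSectionVars false

namespace Pool.Agent.N817.PL.Interp

open Polynomial Pool.Agent.N817.PL.DD

variable {k : Type*} [Field k] [CharZero k] {n : ℕ}

theorem pow_sub_nilpotent {A : Type*} [Ring A] {x y : A} (h : Commute x y) (hxy : IsNilpotent (x - y))
    (N : ℕ) : IsNilpotent (x ^ N - y ^ N) := by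
  rw [← h.mul_geom_sum₂ N]
  apply Commute.isNilpotent_mul_right _ hxy
  apply Commute.sum_right
  intro i _
  refine Commute.mul_right ?_ ?_
  · exact ((Commute.refl x).sub_left h.symm).pow_right _
  · exact (h.sub_left (Commute.refl y)).pow_right _

/-- the Jordan decomposition of an isoclinic endomorphism -/
theorem jordanEnd (f : Module.End k (Fin n → k)) {N : ℕ} {c : k}
    (h : IsNilpotent (f ^ N - c • (1 : Module.End k (Fin n → k)))) :
    ∃ s ν : Module.End k (Fin n → k), IsNilpotent ν ∧ Commute s ν ∧ s ^ N = c • 1 ∧ f = ν + s := by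
  obtain ⟨ν, hν, s, hs, hνn, hss, hf⟩ := f.exists_isNilpotent_isSemisimple
  have hfs : Commute f s := Algebra.commute_of_mem_adjoin_self hs
  have hfν : Commute f ν := Algebra.commute_of_mem_adjoin_self hν
  have hsν : Commute s ν := Algebra.commute_of_mem_adjoin_singleton_of_commute hν hfs.symm
  refine ⟨s, ν, hνn, hsν, ?_, hf⟩
  have h1 : IsNilpotent (f ^ N - s ^ N) := by
    apply pow_sub_nilpotent hfs
    have : f - s = ν := by rw [hf, add_sub_cancel_right]
    rw [this]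
    exact hνn
  have h2 : IsNilpotent (s ^ N - c • (1 : Module.End k (Fin n → k))) := by
    have h3 : s ^ N - c • (1 : Module.End k (Fin n → k)) =
        (f ^ N - c • (1 : Module.End k (Fin n → k))) - (f ^ N - s ^ N) := by abel
    rw [h3]
    refine Commute.isNilpotent_sub ?_ h h1
    have c1 : Commute (f ^ N) (f ^ N - s ^ N) :=
      (Commute.refl _).sub_right ((hfs.pow_right N).pow_left N)
    have c2 : Commute (c • (1 : Module.End k (Fin n → k))) (f ^ N - s ^ N) :=
      (Commute.one_left _).smul_left c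
    exact c1.sub_left c2
  have h3 : (s ^ N - c • (1 : Module.End k (Fin n → k))).IsSemisimple := by
    refine Module.End.IsSemisimple.sub_of_commute ?_ (hss.pow N) ?_
    · exact (Commute.one_right _).smul_right c
    · exact (Module.End.IsSemisimple_smul c Module.End.isSemisimple_id)
  exact sub_eq_zero.1 (Module.End.eq_zero_of_isNilpotent_isSemisimple h2 h3)

theorem jordan (M : (Mat n k)ˣ) {N : ℕ} (hN : 0 < N) {c : k} (hc : c ≠ 0)
    (h : IsNilpotent ((M : Mat n k) ^ N - c • (1 : Mat n k))) :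
    ∃ s : (Mat n k)ˣ, ∃ μ : Mat n k, IsNilpotent μ ∧ Commute (s : Mat n k) μ ∧
      (s : Mat n k) ^ N = c • 1 ∧ (M : Mat n k) = s * (1 + μ) := by
  have e := Matrix.toLinAlgEquiv' (R := k) (n := Fin n)
  obtain ⟨s, ν, hν, hsν, hs, hf⟩ := jordanEnd (Matrix.toLinAlgEquiv' (R := k) (M : Mat n k)) (N := N)
    (c := c) (by
      have h1 := h.map (Matrix.toLinAlgEquiv' (R := k) (n := Fin n))
      rwa [map_sub, map_pow, map_smul, map_one] at h1)
  set s' : Mat n k := (Matrix.toLinAlgEquiv' (R := k) (n := Fin n)).symm s with hs'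
  set ν' : Mat n k := (Matrix.toLinAlgEquiv' (R := k) (n := Fin n)).symm ν with hν'
  have a1 : s' ^ N = c • 1 := by
    rw [hs', ← map_pow, hs, map_smul, map_one]
  have a2 : (M : Mat n k) = ν' + s' := by
    have h1 := congrArg (Matrix.toLinAlgEquiv' (R := k) (n := Fin n)).symm hf
    rw [AlgEquiv.symm_apply_apply, map_add] at h1
    exact h1
  have a3 : Commute s' ν' := by
    have h1 := congrArg (Matrix.toLinAlgEquiv' (R := k) (n := Fin n)).symm hsν.eq
    rw [map_mul, map_mul] at h1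
    exact h1
  have a4 : IsNilpotent ν' := hν.map (Matrix.toLinAlgEquiv' (R := k) (n := Fin n)).symm
  obtain ⟨N', rfl⟩ : ∃ N', N = N' + 1 := ⟨N - 1, by omega⟩
  have b1 : s' * (c⁻¹ • s' ^ N') = 1 := by
    rw [mul_smul_comm, ← pow_succ', a1, smul_smul, inv_mul_cancel₀ hc, one_smul]
  have b2 : (c⁻¹ • s' ^ N') * s' = 1 := by
    rw [smul_mul_assoc, ← pow_succ, a1, smul_smul, inv_mul_cancel₀ hc, one_smul]
  refine ⟨⟨s', c⁻¹ • s' ^ N', b1, b2⟩, (c⁻¹ • s' ^ N') * ν', ?_, ?_, a1, ?_⟩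
  · apply Commute.isNilpotent_mul_left _ a4
    exact (a3.pow_left _).smul_left _
  · change Commute s' ((c⁻¹ • s' ^ N') * ν')
    exact (((Commute.refl s').pow_right _).smul_right _).mul_right a3
  · change (M : Mat n k) = s' * (1 + (c⁻¹ • s' ^ N') * ν')
    rw [mul_add, mul_one, ← mul_assoc, b1, one_mul, a2, add_comm]

theorem ev_mem (Y : Mat n k[X]) (W : Submodule k (Mat n k)) {T : Set k} (hT : T.Infinite)
    (h : ∀ t ∈ T, ev t Y ∈ W) (t : k) : ev t Y ∈ W := by
  by_contra hY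
  obtain ⟨φ, hφ, hW⟩ := Submodule.exists_le_ker_of_notMem hY
  apply hφ
  have h1 : ∀ t : k, φ (ev t Y) =
      (∑ i, ∑ j, C (φ (Matrix.single i j (1 : k))) * Y i j).eval t := by
    intro t
    conv_lhs => rw [Matrix.matrix_eq_sum_single (ev t Y)]
    rw [map_sum, eval_finsetSum]
    refine Finset.sum_congr rfl fun i _ => ?_
    rw [map_sum, eval_finsetSum]
    refine Finset.sum_congr rfl fun j _ => ?_
    rw [ev_apply, eval_mul, eval_C, mul_comm]
    have h2 : Matrix.single i j (eval t (Y i j)) = (eval t (Y i j)) • Matrix.single i j (1 : k) := by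
      rw [Matrix.smul_single, smul_eq_mul, mul_one]
    rw [h2, map_smul, smul_eq_mul]
  have h2 : (∑ i, ∑ j, C (φ (Matrix.single i j (1 : k))) * Y i j) = 0 := by
    apply Polynomial.eq_zero_of_infinite_isRoot
    refine hT.mono fun t ht => ?_
    change eval t _ = 0
    rw [← h1]
    exact hW (h t ht)
  rw [h1, h2, eval_zero]

theorem infinite_T {N K : ℕ} (hN : 0 < N) (hK : 0 < K) :
    (Set.range fun m : ℕ => ((1 + N * K * m : ℕ) : k)).Infinite := by
  apply Set.infinite_range_of_injective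
  intro a b hab
  have h1 : 1 + N * K * a = 1 + N * K * b := Nat.cast_injective hab
  have h2 : N * K * a = N * K * b := by omega
  exact Nat.eq_of_mul_eq_mul_left (Nat.mul_pos hN hK) h2

theorem pow_eq {s μ : Mat n k} {N : ℕ} {c : k} (hsμ : Commute s μ) (hs : s ^ N = c • 1) (K m : ℕ) :
    (s * (1 + μ)) ^ (1 + N * K * m) = c ^ (K * m) • (s * (1 + μ) ^ (1 + N * K * m)) := by
  have h1 : Commute s (1 + μ) := (Commute.one_right s).add_right hsμ
  rw [h1.mul_pow]
  have h2 : s ^ (1 + N * K * m) = c ^ (K * m) • s := by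
    rw [pow_add, pow_one, mul_assoc N, pow_mul s N, hs, _root_.smul_pow, one_pow, mul_smul_comm,
      mul_one]
  rw [h2, smul_mul_assoc]

theorem interp_DD {s μ : Mat n k} {N : ℕ} (hN : 0 < N) {c : k} (hc : c ≠ 0) (hμ : IsNilpotent μ)
    (hsμ : Commute s μ) (hs : s ^ N = c • 1) {K : ℕ} (hK : 0 < K) (u : Mat n k)
    (h : ∀ m : ℕ, DD (((s * (1 + μ)) ^ (1 + N * K * m) * u) ^ N) = 0) : DD ((s * u) ^ N) = 0 := by
  set P : Mat n k[X] := DD ((cst s * E μ * cst u) ^ N) with hP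
  have h1 : ∀ t : k, ev t P = DD ((s * ev t (E μ) * u) ^ N) := by
    intro t
    rw [hP, map_DD_ev, map_pow, map_mul, map_mul, ev_cst, ev_cst]
  have h2 : ∀ t ∈ Set.range fun m : ℕ => ((1 + N * K * m : ℕ) : k), ev t P = 0 := by
    rintro _ ⟨m, rfl⟩
    simp only
    rw [h1, ev_E hμ]
    have h3 := h m
    rw [pow_eq hsμ hs, smul_mul_assoc, _root_.smul_pow, DD_smul] at h3
    rcases smul_eq_zero.1 h3 with h4 | h4
    · exact absurd h4 (pow_ne_zero _ (pow_ne_zero _ (pow_ne_zero _ hc)))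
    · exact h4
  have h3 := ev_eq_zero (infinite_T hN hK) h2 ((0 : ℕ) : k)
  rw [h1, ev_E hμ, pow_zero, mul_one] at h3
  exact h3

theorem interp_W {s : (Mat n k)ˣ} {μ : Mat n k} {N : ℕ} (hN : 0 < N) {c : k} (hc : c ≠ 0)
    (hμ : IsNilpotent μ) (hsμ : Commute (s : Mat n k) μ) (hs : (s : Mat n k) ^ N = c • 1)
    (M : (Mat n k)ˣ) (hM : (M : Mat n k) = s * (1 + μ)) (W : Submodule k (Mat n k))
    (hW : ∀ X ∈ W, (M : Mat n k) * X * ((M⁻¹ : (Mat n k)ˣ) : Mat n k) ∈ W) (X : Mat n k) (hX : X ∈ W) :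
    (s : Mat n k) * X * ((s⁻¹ : (Mat n k)ˣ) : Mat n k) ∈ W := by
  -- the inverse of `1 + μ`
  obtain ⟨w, hw⟩ := hμ.isUnit_one_add
  have hwμ : Commute μ (w : Mat n k) := by
    rw [hw]
    exact (Commute.one_right μ).add_right (Commute.refl μ)
  have hwμ' : Commute μ ((w⁻¹ : (Mat n k)ˣ) : Mat n k) := hwμ.units_inv_right
  set μ' : Mat n k := ((w⁻¹ : (Mat n k)ˣ) : Mat n k) - 1 with hμ'
  have hμ'n : IsNilpotent μ' := by
    have h1 : μ' = -(μ * ((w⁻¹ : (Mat n k)ˣ) : Mat n k)) := by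
      have h2 : (w : Mat n k) * ((w⁻¹ : (Mat n k)ˣ) : Mat n k) = 1 := Units.mul_inv w
      rw [hw, add_mul, one_mul] at h2
      rw [hμ', ← h2]
      abel
    rw [h1]
    exact (Commute.isNilpotent_mul_right hwμ' hμ).neg
  have hμ'1 : 1 + μ' = ((w⁻¹ : (Mat n k)ˣ) : Mat n k) := by
    rw [hμ']
    abel
  have hit : ∀ t : ℕ, (M : Mat n k) ^ t * X * ((M⁻¹ : (Mat n k)ˣ) : Mat n k) ^ t ∈ W := by
    intro t
    induction t with
    | zero => simpa using hX
    | succ t ih =>
      have h1 := hW _ ih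
      have h2 : (M : Mat n k) ^ (t + 1) * X * ((M⁻¹ : (Mat n k)ˣ) : Mat n k) ^ (t + 1) =
          (M : Mat n k) * ((M : Mat n k) ^ t * X * ((M⁻¹ : (Mat n k)ˣ) : Mat n k) ^ t) *
            ((M⁻¹ : (Mat n k)ˣ) : Mat n k) := by
        rw [pow_succ', pow_succ]
        simp only [mul_assoc]
      rw [h2]
      exact h1
  have hMinv : ((M⁻¹ : (Mat n k)ˣ) : Mat n k) = (1 + μ') * ((s⁻¹ : (Mat n k)ˣ) : Mat n k) := by
    have h1 : M = s * w := by
      apply Units.ext
      rw [Units.val_mul, hM, hw]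
    rw [h1, mul_inv_rev, Units.val_mul, hμ'1]
  have hsμ' : Commute (s : Mat n k) (1 + μ') := by
    rw [hμ'1]
    apply Commute.units_inv_right
    rw [hw]
    exact (Commute.one_right _).add_right hsμ
  have hsinv : ((s⁻¹ : (Mat n k)ˣ) : Mat n k) ^ N = c⁻¹ • 1 := by
    have h1 : (s : Mat n k) ^ N * ((s⁻¹ : (Mat n k)ˣ) : Mat n k) ^ N = 1 := by
      rw [← Units.val_pow_eq_pow_val, ← Units.val_pow_eq_pow_val, inv_pow, Units.mul_inv]
    rw [hs, smul_mul_assoc, one_mul] at h1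
    rw [← h1, smul_smul, inv_mul_cancel₀ hc, one_smul]
  set Y : Mat n k[X] := cst (s : Mat n k) * E μ * cst X * E μ' *
    cst ((s⁻¹ : (Mat n k)ˣ) : Mat n k) with hY
  have h2 : ∀ t ∈ Set.range fun m : ℕ => ((1 + N * 1 * m : ℕ) : k), ev t Y ∈ W := by
    rintro _ ⟨m, rfl⟩
    simp only
    have h3 := hit (1 + N * 1 * m)
    have h4 : Commute ((s⁻¹ : (Mat n k)ˣ) : Mat n k) (1 + μ') := hsμ'.units_inv_left
    have h5 : Commute ((s⁻¹ : (Mat n k)ˣ) : Mat n k) μ' := by
      have h6 := h4.sub_right (Commute.one_right _)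
      rwa [add_sub_cancel_left] at h6
    rw [hM, pow_eq hsμ hs, hMinv, ← h4.eq, pow_eq h5 hsinv, (h4.pow_right _).eq, smul_mul_assoc,
      smul_mul_smul_comm, ← mul_pow, mul_inv_cancel₀ hc, one_pow, one_smul] at h3
    rw [hY, map_mul, map_mul, map_mul, map_mul, ev_cst, ev_cst, ev_cst, ev_E hμ, ev_E hμ'n]
    simpa only [mul_assoc] using h3
  have h3 := ev_mem Y W (infinite_T hN one_pos) h2 ((0 : ℕ) : k)
  rw [hY, map_mul, map_mul, map_mul, map_mul, ev_cst, ev_cst, ev_cst, ev_E hμ, ev_E hμ'n, pow_zero,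
    pow_zero, mul_one, mul_one] at h3
  exact h3

end Pool.Agent.N817.PL.Interp
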