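import Pool.Agent.H86.FMLib.N817.PL.Proj

/-!
# Solvability from nilpotency of the fixed elements of an automorphism of finite order
-/

set_option autoImplicit false
set_option linter.unusedSectionVars false

namespace Pool.Agent.N817.PL.Solv

open Finset Pool.Agent.N817.PL.Proj LieModule

attribute [local instance 100] LieRing.ofAssociativeRing

section perfect

variable {k D V : Type*} [Field k] [CharZero k] [IsAlgClosed k] [LieRing D] [LieAlgebra k D]
  [AddCommGroup V] [Module k V] [LieRingModule D V] [LieModule k D V] [FiniteDimensional k D]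
  [FiniteDimensional k V]

/-- the fixed points of `σ` -/
def fixed (σ : D →ₗ⁅k⁆ D) : LieSubalgebra k D where
  carrier := {x | σ x = x}
  add_mem' := by
    intro x y hx hy
    rw [Set.mem_ofPred_eq] at hx hy ⊢
    rw [map_add, hx, hy]
  zero_mem' := map_zero σ
  smul_mem' := by
    intro c x hx
    rw [Set.mem_ofPred_eq] at hx ⊢
    rw [map_smul, hx]
  lie_mem' := by
    intro x y hx hy
    change σ _ = _
    have hx' : σ x = x := hx
    have hy' : σ y = y := hy
    rw [LieHom.map_lie, hx', hy']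

theorem perfect_case (σ : D →ₗ⁅k⁆ D) {N : ℕ} [NeZero N] (hσ : ∀ x, σ^[N] x = x)
    (hperf : ∀ x : D, x ∈ Submodule.span k {z | ∃ a b : D, z = ⁅a, b⁆})
    (htr : ∀ x y, traceForm k D V (σ x) (σ y) = traceForm k D V x y)
    (hfix : ∀ x, σ x = x → IsNilpotent (toEnd k D V x)) (x : D) :
    IsNilpotent (toEnd k D V x) := by
  have hN : (N : k) ≠ 0 := by exact_mod_cast NeZero.ne N
  have : NeZero (N : k) := ⟨hN⟩
  obtain ⟨ω, hω⟩ := HasEnoughRootsOfUnity.exists_primitiveRoot k N
  have hω1 := hω.pow_eq_one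
  -- the radical of the trace form
  let R : LieIdeal k D :=
    { LinearMap.ker (traceForm k D V) with
      lie_mem := by
        intro a x hx
        have h1 : traceForm k D V x = 0 := hx
        change traceForm k D V ⁅a, x⁆ = 0
        ext y
        rw [traceForm_apply_lie_apply', h1]
        simp }
  have hRmem : ∀ x, x ∈ R ↔ ∀ y, traceForm k D V x y = 0 := by
    intro x
    constructor
    · intro h y
      have h1 : traceForm k D V x = 0 := h
      rw [h1]
      rfl
    · intro h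
      change traceForm k D V x = 0
      ext y
      exact h y
  have hfixm : ∀ x, x ∈ fixed σ ↔ σ x = x := fun x => Iff.rfl
  -- the trace form on the fixed points
  have hF : ∀ x y, σ x = x → σ y = y → traceForm k D V x y = 0 := by
    intro x y hx hy
    have h1 : LieModule.IsNilpotent (fixed σ) V := by
      rw [LieModule.isNilpotent_iff_forall (R := k)]
      intro z
      exact hfix z z.2
    have h2 : traceForm k (fixed σ) V = 0 := traceForm_eq_zero_of_isNilpotent k (fixed σ) V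
    have h3 : traceForm k (fixed σ) V ⟨x, hx⟩ ⟨y, hy⟩ = 0 := by
      rw [h2]
      rfl
    exact h3
  have hit : ∀ (j : ℕ) (u y : D), σ u = u → traceForm k D V u (σ^[j] y) = traceForm k D V u y := by
    intro j u y hu
    induction j with
    | zero => rfl
    | succ j ih =>
      rw [Function.iterate_succ_apply']
      conv_lhs => rw [← hu]
      rw [htr, ih]
  have hpr0 : ∀ x, σ (pr σ ω (0 : ZMod N) x) = pr σ ω (0 : ZMod N) x := by
    intro x
    rw [sigma_pr hω1 hσ, ZMod.val_zero, pow_zero, one_smul]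
  have h3 : ∀ x, pr σ ω (0 : ZMod N) x ∈ R := by
    intro x
    rw [hRmem]
    intro y
    have h4 := hF _ _ (hpr0 x) (hpr0 y)
    rw [pr_apply σ ω 0 y, map_smul, map_sum] at h4
    have h5 : ∀ j ∈ range N, traceForm k D V (pr σ ω (0 : ZMod N) x)
        ((ω⁻¹) ^ ((0 : ZMod N).val * j) • σ^[j] y) = traceForm k D V (pr σ ω (0 : ZMod N) x) y := by
      intro j _
      rw [ZMod.val_zero, zero_mul, pow_zero, one_smul, hit j _ y (hpr0 x)]
    rw [sum_congr rfl h5, sum_const, card_range, nsmul_eq_mul, smul_eq_mul, ← mul_assoc,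
      inv_mul_cancel₀ hN, one_mul] at h4
    exact h4
  have hRσ : ∀ x ∈ R, σ x ∈ R := by
    intro x hx
    rw [hRmem] at hx ⊢
    intro y
    obtain ⟨n, hn⟩ : ∃ n, N = n + 1 := ⟨N - 1, (Nat.succ_pred_eq_of_ne_zero (NeZero.ne N)).symm⟩
    have h4 : σ (σ^[n] y) = y := by
      rw [← Function.iterate_succ_apply' σ]
      have := hσ y
      rwa [hn] at this
    rw [← h4, htr]
    exact hx _
  have hRit : ∀ (j : ℕ), ∀ x ∈ R, σ^[j] x ∈ R := by
    intro j x hx
    induction j with
    | zero => exact hx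
    | succ j ih =>
      rw [Function.iterate_succ_apply']
      exact hRσ _ ih
  have hR : ∀ (i : ZMod N), ∀ x ∈ R, pr σ ω i x ∈ R := by
    intro i x hx
    rw [pr_apply]
    refine R.smul_mem _ (Submodule.sum_mem R.toSubmodule fun j _ => ?_)
    exact R.smul_mem _ (hRit j x hx)
  have h4 := Krek.krek (fun i => pr σ ω i) R (fun x => sum_pr hω x)
    (fun i b z u => pr_lie hω1 hσ i b z u) h3 hR hperf
  have h5 : traceForm k D V = 0 := by
    ext x y
    have : x ∈ R := by
      rw [h4]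
      trivial
    exact (hRmem x).1 this y
  have h6 := isNilpotent_derivedSeries_of_traceForm_eq_zero h5
  rw [LieModule.isNilpotent_iff_forall (R := k)] at h6
  have h7 : x ∈ LieAlgebra.derivedSeries k D 1 := by
    have h9 : Submodule.span k {z | ∃ a b : D, z = ⁅a, b⁆} ≤
        (LieAlgebra.derivedSeries k D 1 : LieIdeal k D).toSubmodule := by
      rw [Submodule.span_le]
      rintro _ ⟨a, b, rfl⟩
      exact LieSubmodule.lie_mem_lie (LieSubmodule.mem_top a) (LieSubmodule.mem_top b)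
    exact h9 (hperf x)
  exact h6 ⟨x, h7⟩

end perfect

section matrix

variable {k : Type*} [Field k] [CharZero k] [IsAlgClosed k] {n : ℕ}

/-- conjugation by `s` on a stable Lie algebra of matrices -/
def conj (L : LieSubalgebra k (Matrix (Fin n) (Fin n) k)) (s : (Matrix (Fin n) (Fin n) k)ˣ)
    (hs : ∀ x ∈ L, (s : Matrix (Fin n) (Fin n) k) * x * (s⁻¹ : (Matrix (Fin n) (Fin n) k)ˣ) ∈ L) :
    L →ₗ⁅k⁆ L where
  toFun x := ⟨s * x * (s⁻¹ : (Matrix (Fin n) (Fin n) k)ˣ), hs x x.2⟩
  map_add' x y := by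
    apply Subtype.ext
    simp [mul_add, add_mul]
  map_smul' c x := by
    apply Subtype.ext
    simp
  map_lie' := by
    intro x y
    apply Subtype.ext
    change (s : Matrix (Fin n) (Fin n) k) * (x.1 * y.1 - y.1 * x.1) *
      (s⁻¹ : (Matrix (Fin n) (Fin n) k)ˣ) = (s * x.1 * (s⁻¹ : (Matrix (Fin n) (Fin n) k)ˣ)) *
      (s * y.1 * (s⁻¹ : (Matrix (Fin n) (Fin n) k)ˣ)) -
      (s * y.1 * (s⁻¹ : (Matrix (Fin n) (Fin n) k)ˣ)) *
      (s * x.1 * (s⁻¹ : (Matrix (Fin n) (Fin n) k)ˣ))
    have h1 : ∀ a b : Matrix (Fin n) (Fin n) k, (s * a * (s⁻¹ : (Matrix (Fin n) (Fin n) k)ˣ)) *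
        (s * b * (s⁻¹ : (Matrix (Fin n) (Fin n) k)ˣ)) =
        s * (a * b) * (s⁻¹ : (Matrix (Fin n) (Fin n) k)ˣ) := by
      intro a b
      simp only [mul_assoc, Units.inv_mul_cancel_left]
    rw [h1, h1, mul_sub, sub_mul]

theorem trace_lie_zero (a b : Matrix (Fin n) (Fin n) k) : (a * b - b * a).trace = 0 := by
  rw [Matrix.trace_sub, Matrix.trace_mul_comm, sub_self]

theorem conj_iter (L : LieSubalgebra k (Matrix (Fin n) (Fin n) k))
    (s : (Matrix (Fin n) (Fin n) k)ˣ)
    (hs : ∀ x ∈ L, (s : Matrix (Fin n) (Fin n) k) * x * (s⁻¹ : (Matrix (Fin n) (Fin n) k)ˣ) ∈ L)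
    (j : ℕ) (x : L) : (((conj L s hs)^[j] x : L) : Matrix (Fin n) (Fin n) k) =
      (s : Matrix (Fin n) (Fin n) k) ^ j * x * ((s⁻¹ : (Matrix (Fin n) (Fin n) k)ˣ) :
        Matrix (Fin n) (Fin n) k) ^ j := by
  induction j with
  | zero => simp
  | succ j ih =>
    rw [Function.iterate_succ_apply']
    change (s : Matrix (Fin n) (Fin n) k) * _ * (s⁻¹ : (Matrix (Fin n) (Fin n) k)ˣ) = _
    rw [ih, pow_succ' (s : Matrix (Fin n) (Fin n) k), pow_succ]
    simp only [mul_assoc]

theorem conj_period (L : LieSubalgebra k (Matrix (Fin n) (Fin n) k))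
    (s : (Matrix (Fin n) (Fin n) k)ˣ) {N : ℕ} {c : k}
    (hc : (s : Matrix (Fin n) (Fin n) k) ^ N = c • 1)
    (hs : ∀ x ∈ L, (s : Matrix (Fin n) (Fin n) k) * x * (s⁻¹ : (Matrix (Fin n) (Fin n) k)ˣ) ∈ L)
    (x : L) : (conj L s hs)^[N] x = x := by
  apply Subtype.ext
  rw [conj_iter, hc]
  have h1 : (s : Matrix (Fin n) (Fin n) k) ^ N *
      ((s⁻¹ : (Matrix (Fin n) (Fin n) k)ˣ) : Matrix (Fin n) (Fin n) k) ^ N = 1 := by
    rw [← Units.val_pow_eq_pow_val, ← Units.val_pow_eq_pow_val, inv_pow, Units.mul_inv]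
  rw [hc] at h1
  rw [smul_mul_assoc, one_mul, smul_mul_assoc]
  rw [smul_mul_assoc, one_mul] at h1
  rw [← mul_smul_comm, h1, mul_one]

/-- **Solvability.** -/
theorem solvable (L : LieSubalgebra k (Matrix (Fin n) (Fin n) k))
    (s : (Matrix (Fin n) (Fin n) k)ˣ) {N : ℕ} (hN : 0 < N) {c : k}
    (hc : (s : Matrix (Fin n) (Fin n) k) ^ N = c • 1)
    (hs : ∀ x ∈ L, (s : Matrix (Fin n) (Fin n) k) * x * (s⁻¹ : (Matrix (Fin n) (Fin n) k)ˣ) ∈ L)
    (hfix : ∀ x ∈ L, (s : Matrix (Fin n) (Fin n) k) * x = x * s → x.trace = 0 → IsNilpotent x) :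
    LieAlgebra.IsSolvable L := by
  have : NeZero N := ⟨hN.ne'⟩
  -- the derived series stabilises
  let f : ℕ →o (Submodule k L)ᵒᵈ :=
    { toFun := fun j => OrderDual.toDual (LieAlgebra.derivedSeries k L j).toSubmodule
      monotone' := by
        intro i j hij
        change (LieAlgebra.derivedSeries k L j).toSubmodule ≤
          (LieAlgebra.derivedSeries k L i).toSubmodule
        exact LieAlgebra.derivedSeriesOfIdeal_antitone ⊤ hij }
  obtain ⟨j, hj⟩ := IsArtinian.monotone_stabilizes f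
  have hj1 : (LieAlgebra.derivedSeries k L j).toSubmodule =
      (LieAlgebra.derivedSeries k L (j + 1)).toSubmodule := hj (j + 1) (Nat.le_succ j)
  set D : LieIdeal k L := LieAlgebra.derivedSeries k L j with hD
  have hDD : (⁅D, D⁆ : LieIdeal k L) = D := by
    have h1 : LieAlgebra.derivedSeries k L (j + 1) = (⁅D, D⁆ : LieIdeal k L) :=
      LieAlgebra.derivedSeriesOfIdeal_succ k L ⊤ j
    rw [← h1]
    exact (LieSubmodule.toSubmodule_injective hj1).symm
  have hspan : ∀ x ∈ D, x ∈ Submodule.span k {z : L | ∃ a ∈ D, ∃ b ∈ D, ⁅a, b⁆ = z} := by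
    intro x hx
    rw [← hDD, ← LieSubmodule.mem_toSubmodule, LieSubmodule.lieIdeal_oper_eq_linear_span'] at hx
    exact hx
  have htr0 : ∀ x ∈ D, (x : Matrix (Fin n) (Fin n) k).trace = 0 := by
    intro x hx
    have h1 : Submodule.span k {z : L | ∃ a ∈ D, ∃ b ∈ D, ⁅a, b⁆ = z} ≤
        LinearMap.ker ((Matrix.traceLinearMap (Fin n) k k).comp L.toSubmodule.subtype) := by
      rw [Submodule.span_le]
      rintro _ ⟨a, _, b, _, rfl⟩
      exact trace_lie_zero (a : Matrix (Fin n) (Fin n) k) b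
    exact h1 (hspan x hx)
  -- the automorphism of `D`
  have hσD : ∀ x ∈ D, conj L s hs x ∈ D := fun x hx =>
    LieIdeal.derivedSeries_map_le (f := conj L s hs) j (LieIdeal.mem_map hx)
  let σ : D →ₗ⁅k⁆ D :=
    { toFun := fun x => ⟨conj L s hs x, hσD x x.2⟩
      map_add' := fun x y => Subtype.ext (map_add (conj L s hs) (x : L) y)
      map_smul' := fun c x => Subtype.ext (map_smul (conj L s hs) c (x : L))
      map_lie' := fun {x y} => Subtype.ext (LieHom.map_lie (conj L s hs) (x : L) y) }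
  have hσit : ∀ (m : ℕ) (x : D), ((σ^[m] x : D) : L) = (conj L s hs)^[m] x := by
    intro m x
    induction m with
    | zero => rfl
    | succ m ih =>
      rw [Function.iterate_succ_apply', Function.iterate_succ_apply', ← ih]
      rfl
  have hσN : ∀ x, σ^[N] x = x := by
    intro x
    apply Subtype.ext
    rw [hσit, conj_period L s hc hs]
  have hperf : ∀ x : D, x ∈ Submodule.span k {z | ∃ a b : D, z = ⁅a, b⁆} := by
    intro x
    have h1 : Submodule.span k {z : L | ∃ a ∈ D, ∃ b ∈ D, ⁅a, b⁆ = z} ≤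
        (Submodule.span k {z | ∃ a b : D, z = ⁅a, b⁆}).map D.toSubmodule.subtype := by
      rw [Submodule.span_le]
      rintro _ ⟨a, ha, b, hb, rfl⟩
      exact ⟨⁅(⟨a, ha⟩ : D), (⟨b, hb⟩ : D)⁆, Submodule.subset_span ⟨⟨a, ha⟩, ⟨b, hb⟩, rfl⟩, rfl⟩
    obtain ⟨y, hy, hyx⟩ := h1 (hspan x x.2)
    have h2 : y = x := Subtype.ext hyx
    rwa [h2] at hy
  have hend : ∀ x : D, toEnd k D (Fin n → k) x =
      Matrix.toLin' ((x : L) : Matrix (Fin n) (Fin n) k) := by
    intro x
    ext v i
    rfl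
  have htrace : ∀ x y : D, traceForm k D (Fin n → k) x y =
      (((x : L) : Matrix (Fin n) (Fin n) k) * ((y : L) : Matrix (Fin n) (Fin n) k)).trace := by
    intro x y
    rw [traceForm_apply_apply, hend, hend, ← Matrix.toLin'_mul, Matrix.trace_toLin'_eq]
  have hnil := perfect_case (V := Fin n → k) σ hσN hperf (by
    intro x y
    rw [htrace, htrace]
    change ((s : Matrix (Fin n) (Fin n) k) * (x : L) * (s⁻¹ : (Matrix (Fin n) (Fin n) k)ˣ) *
      (s * (y : L) * (s⁻¹ : (Matrix (Fin n) (Fin n) k)ˣ))).trace = _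
    simp only [mul_assoc, Units.inv_mul_cancel_left]
    rw [Matrix.trace_mul_comm]
    simp only [mul_assoc, Units.inv_mul, mul_one]) (by
    intro x hx
    rw [hend]
    have h1 : (s : Matrix (Fin n) (Fin n) k) * (x : L) * (s⁻¹ : (Matrix (Fin n) (Fin n) k)ˣ) =
        (x : L) := congrArg (fun z : D => ((z : L) : Matrix (Fin n) (Fin n) k)) hx
    have h2 := hfix (x : L) (x : L).2 (by
      conv_rhs => rw [← h1]
      rw [mul_assoc _ _ (s : Matrix (Fin n) (Fin n) k), Units.inv_mul, mul_one]) (htr0 x x.2)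
    exact h2.map (Matrix.toLinAlgEquiv' (R := k) (n := Fin n)))
  have hnil2 : ∀ x : D, IsNilpotent ((x : L) : Matrix (Fin n) (Fin n) k) := by
    intro x
    have h1 := hnil x
    rw [hend] at h1
    have h2 := h1.map (Matrix.toLinAlgEquiv' (R := k) (n := Fin n)).symm
    have h3 : Matrix.toLin' ((x : L) : Matrix (Fin n) (Fin n) k) =
      Matrix.toLinAlgEquiv' ((x : L) : Matrix (Fin n) (Fin n) k) := rfl
    rw [h3, AlgEquiv.symm_apply_apply] at h2
    exact h2
  have hDn : LieRing.IsNilpotent D := by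
    rw [LieAlgebra.isNilpotent_iff_forall (R := k)]
    intro x
    exact LieSubalgebra.isNilpotent_ad_of_isNilpotent_ad (D : LieSubalgebra k L) (x := ⟨x, x.2⟩)
      (LieAlgebra.isNilpotent_ad_of_isNilpotent (hnil2 x))
  have hDs : LieAlgebra.IsSolvable D := inferInstance
  obtain ⟨m, hm⟩ := LieAlgebra.IsSolvable.solvable k D
  rw [LieIdeal.derivedSeries_eq_bot_iff] at hm
  refine LieAlgebra.IsSolvable.mk (R := k) (k := m + j) ?_
  rw [LieAlgebra.derivedSeries_def, LieAlgebra.derivedSeriesOfIdeal_add]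
  exact hm

end matrix

end Pool.Agent.N817.PL.Solv
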