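import Pool.Agent.H86.FMLib.N817.PL.Interp
import Pool.Agent.H86.FMLib.N817.PL.Nrm
import Pool.Agent.H86.FMLib.N817.PL.Solv

/-!
# First order expansions, and extension of scalars
-/

set_option autoImplicit false
set_option linter.unusedSectionVars false

namespace Pool.Agent.N817.PL.Lie

open Polynomial Pool.Agent.N817.PL.DD Filter Topology

section ring

variable {R S : Type*} [CommRing R] [CommRing S] {n : ℕ}

/-- the derivative of `(s * (1 + y)) ^ m` at `y = 0` -/
def Bm (s : Mat n R) : ℕ → Mat n R → Mat n R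
  | 0, _ => 0
  | m + 1, y => Bm s m y * s + s ^ (m + 1) * y

theorem Bm_map (f : R →+* S) (s : Mat n R) (m : ℕ) (y : Mat n R) :
    f.mapMatrix (Bm s m y) = Bm (f.mapMatrix s) m (f.mapMatrix y) := by
  induction m with
  | zero => exact map_zero _
  | succ m ih =>
    unfold Bm
    rw [map_add, map_mul, map_mul, map_pow, ih]

theorem Bm_comm {s y : Mat n R} (h : s * y = y * s) (m : ℕ) : Bm s m y = (m : R) • (s ^ m * y) := by
  induction m with
  | zero => simp [Bm]
  | succ m ih =>
    unfold Bm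
    rw [ih, smul_mul_assoc, mul_assoc, ← h, ← mul_assoc, ← pow_succ, Nat.cast_succ, add_smul,
      one_smul]

theorem DD_add_scalar (c : R) (A : Mat n R) : DD (c • (1 : Mat n R) + A) = DD A := by
  unfold DD
  congr 1
  rw [Matrix.trace_add, Matrix.trace_smul, Matrix.trace_one, Fintype.card_fin, smul_add, smul_smul,
    add_smul, smul_eq_mul, mul_comm c]
  abel

end ring

section limit

variable {p : ℕ} [hp : Fact p.Prime] {F : Type*} [NormedField F] [NormedAlgebra ℚ_[p] F] {n : ℕ}

open Pool.Agent.N817.PL.Nrm Pool.Agent.N817.PL.Lim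

attribute [local instance] nring nalg

variable [IsUltrametricDist F]

theorem tendsto_Bm (s y : Mat n F) (x : ℕ → Mat n F) (hx : Tendsto x atTop (𝓝 y)) (m : ℕ) :
    Tendsto (fun k => ((p : ℚ_[p])⁻¹) ^ k •
      ((s * (1 + (p : ℚ_[p]) ^ k • x k)) ^ m - s ^ m)) atTop (𝓝 (Bm s m y)) := by
  induction m with
  | zero =>
    simp only [pow_zero, sub_self, smul_zero]
    exact tendsto_const_nhds
  | succ m ih =>
    unfold Bm
    have h1 := ((ih.mul_const s).add (hx.const_mul (s ^ (m + 1)))).add
      ((q_tendsto (p := p)).smul ((ih.mul_const s).mul hx))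
    rw [zero_smul, add_zero] at h1
    refine h1.congr fun k => ?_
    set a := (s * (1 + (p : ℚ_[p]) ^ k • x k)) ^ m with ha
    have h2 : (s * (1 + (p : ℚ_[p]) ^ k • x k)) ^ (m + 1) - s ^ (m + 1) =
        (a - s ^ m) * s + (p : ℚ_[p]) ^ k • (s ^ (m + 1) * x k) +
          (p : ℚ_[p]) ^ k • ((a - s ^ m) * s * x k) := by
      rw [pow_succ, ← ha, pow_succ s m]
      simp only [mul_add, mul_one, sub_mul, smul_sub, mul_smul_comm, mul_assoc]
      abel
    rw [h2, smul_add, smul_add, smul_smul, smul_smul, qp, one_smul, one_smul]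
    simp only [smul_mul_assoc, smul_smul]
    rw [mul_comm ((p : ℚ_[p]) ^ k), qp, one_smul]

theorem continuous_DD : Continuous (DD : Mat n F → Mat n F) := by
  unfold DD
  have h1 : Continuous fun A : Mat n F => A.trace := by
    unfold Matrix.trace
    exact continuous_finsetSum _ fun i _ => continuous_id.matrix_elem i i
  exact ((continuous_id.const_smul (n : F)).sub (h1.smul continuous_const)).pow n

theorem limit_DD {s : Mat n F} {N : ℕ} {c : F} (hs : s ^ N = c • 1) (y : Mat n F) (x : ℕ → Mat n F)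
    (hx : Tendsto x atTop (𝓝 y))
    (h : ∀ k, DD ((s * (1 + (p : ℚ_[p]) ^ k • x k)) ^ N) = 0) : DD (Bm s N y) = 0 := by
  have h1 := (continuous_DD.tendsto _).comp (tendsto_Bm (p := p) s y x hx N)
  refine tendsto_nhds_unique h1 ?_
  refine tendsto_const_nhds.congr fun k => ?_
  have h3 : (p : ℚ_[p]) ≠ 0 := by exact_mod_cast hp.out.ne_zero
  have h2 : (s * (1 + (p : ℚ_[p]) ^ k • x k)) ^ N = c • 1 + (algebraMap ℚ_[p] F ((p : ℚ_[p]) ^ k)) •
      (((p : ℚ_[p])⁻¹) ^ k • ((s * (1 + (p : ℚ_[p]) ^ k • x k)) ^ N - s ^ N)) := by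
    rw [algebraMap_smul, smul_smul, mul_comm, qp, one_smul, hs]
    abel
  have h4 := h k
  rw [h2, DD_add_scalar, DD_smul] at h4
  rcases smul_eq_zero.1 h4 with h5 | h5
  · exfalso
    have h6 : (algebraMap ℚ_[p] F) ((p : ℚ_[p]) ^ k) ≠ 0 := by
      rw [Ne, map_eq_zero]
      exact pow_ne_zero _ h3
    exact pow_ne_zero n h6 h5
  · exact h5.symm

end limit

section extend

attribute [local instance 100] LieRing.ofAssociativeRing

variable {k₀ Ω : Type*} [Field k₀] [Field Ω] [Algebra k₀ Ω] [CharZero k₀] [CharZero Ω] {n : ℕ}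

theorem lie_span (L : Submodule k₀ (Mat n Ω)) (hL : ∀ x ∈ L, ∀ y ∈ L, x * y - y * x ∈ L)
    {x y : Mat n Ω} (hx : x ∈ Submodule.span Ω (L : Set (Mat n Ω)))
    (hy : y ∈ Submodule.span Ω (L : Set (Mat n Ω))) :
    x * y - y * x ∈ Submodule.span Ω (L : Set (Mat n Ω)) := by
  induction hx using Submodule.span_induction with
  | mem x hx =>
    induction hy using Submodule.span_induction with
    | mem y hy => exact Submodule.subset_span (hL x hx y hy)
    | zero =>
      rw [mul_zero, zero_mul, sub_zero]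
      exact Submodule.zero_mem _
    | add y z _ _ hy hz =>
      rw [mul_add, add_mul, add_sub_add_comm]
      exact Submodule.add_mem _ hy hz
    | smul c y _ hy =>
      rw [mul_smul_comm, smul_mul_assoc, ← smul_sub]
      exact Submodule.smul_mem _ c hy
  | zero =>
    rw [mul_zero, zero_mul, sub_zero]
    exact Submodule.zero_mem _
  | add x z _ _ hx hz =>
    rw [mul_add, add_mul, add_sub_add_comm]
    exact Submodule.add_mem _ hx hz
  | smul c x _ hx =>
    rw [mul_smul_comm, smul_mul_assoc, ← smul_sub]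
    exact Submodule.smul_mem _ c hx

/-- the Lie algebra over `Ω` generated by a Lie algebra `L` over `k₀` of matrices -/
def LΩ (L : Submodule k₀ (Mat n Ω)) (hL : ∀ x ∈ L, ∀ y ∈ L, x * y - y * x ∈ L) :
    LieSubalgebra Ω (Mat n Ω) :=
  { Submodule.span Ω (L : Set (Mat n Ω)) with
    lie_mem' := fun hx hy => lie_span L hL hx hy }

theorem mem_LΩ (L : Submodule k₀ (Mat n Ω)) (hL : ∀ x ∈ L, ∀ y ∈ L, x * y - y * x ∈ L)
    (x : Mat n Ω) : x ∈ LΩ L hL ↔ x ∈ Submodule.span Ω (L : Set (Mat n Ω)) := Iff.rfl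

theorem extend (L : Submodule k₀ (Mat n Ω)) (s : Mat n Ω) (N : ℕ)
    (h : ∀ y ∈ L, DD (Bm s N y) = 0) (y : Mat n Ω) (hy : y ∈ Submodule.span Ω (L : Set (Mat n Ω))) :
    DD (Bm s N y) = 0 := by
  have key : ∀ w ∈ Submodule.span Ω (L : Set (Mat n Ω)), ∀ (c : Ω) (v : Mat n Ω),
      (∀ x ∈ L, DD (Bm s N (x + v)) = 0) → ∀ x ∈ L, DD (Bm s N (x + (v + c • w))) = 0 := by
    intro w hw
    induction hw using Submodule.span_induction with
    | mem w hw =>
      intro c v hv x hx
      set Y : Mat n (Polynomial Ω) := DD (Bm (cst s) N (cst (x + v) + (X : Polynomial Ω) • cst w)) with hY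
      have h1 : ∀ t : Ω, ev t Y = DD (Bm s N (x + (v + t • w))) := by
        intro t
        rw [hY, map_DD_ev]
        congr 1
        unfold ev
        rw [Bm_map, map_add]
        have e1 := ev_cst t s
        have e2 := ev_cst t (x + v)
        have e3 : (evalRingHom t).mapMatrix ((X : Polynomial Ω) • cst w) = t • w := by
          ext i j
          have e4 := congrFun (congrFun (ev_cst t w) i) j
          rw [ev_apply] at e4
          simp [e4]
        unfold ev at e1 e2
        rw [e1, e2, e3, add_assoc]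
      rw [← h1]
      refine ev_eq_zero (T := Set.range (algebraMap k₀ Ω)) ?_ ?_ c
      · exact Set.infinite_range_of_injective (algebraMap k₀ Ω).injective
      · rintro _ ⟨t, rfl⟩
        rw [h1, algebraMap_smul]
        have h2 : x + (v + t • w) = (x + t • w) + v := by abel
        rw [h2]
        exact hv _ (L.add_mem hx (L.smul_mem t hw))
    | zero =>
      intro c v hv x hx
      rw [smul_zero, add_zero]
      exact hv x hx
    | add w z _ _ hw hz =>
      intro c v hv x hx
      rw [smul_add, ← add_assoc v]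
      exact hz c _ (hw c v hv) x hx
    | smul a w _ hw =>
      intro c v hv x hx
      rw [smul_smul]
      exact hw _ v hv x hx
  have h1 := key y hy 1 0 (fun x hx => by
    rw [add_zero]
    exact h x hx) 0 L.zero_mem
  rw [one_smul, zero_add, zero_add] at h1
  exact h1

/-- **Solvability of the Lie algebra.** -/
theorem solvable [IsAlgClosed Ω] (L : Submodule k₀ (Mat n Ω))
    (hL : ∀ x ∈ L, ∀ y ∈ L, x * y - y * x ∈ L)
    (s : (Mat n Ω)ˣ) {N : ℕ} (hN : 0 < N) {c : Ω} (hc : c ≠ 0) (hs : (s : Mat n Ω) ^ N = c • 1)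
    (hconj : ∀ x ∈ L, (s : Mat n Ω) * x * ((s⁻¹ : (Mat n Ω)ˣ) : Mat n Ω) ∈
      Submodule.span Ω (L : Set (Mat n Ω)))
    (h : ∀ y ∈ L, DD (Bm (s : Mat n Ω) N y) = 0) : LieAlgebra.IsSolvable (LΩ L hL) := by
  refine Solv.solvable (LΩ L hL) s hN hs ?_ ?_
  · intro x hx
    rw [mem_LΩ] at hx ⊢
    induction hx using Submodule.span_induction with
    | mem x hx => exact hconj x hx
    | zero =>
      rw [mul_zero, zero_mul]
      exact Submodule.zero_mem _
    | add x y _ _ hx hy =>
      rw [mul_add, add_mul]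
      exact Submodule.add_mem _ hx hy
    | smul a x _ hx =>
      rw [mul_smul_comm, smul_mul_assoc]
      exact Submodule.smul_mem _ a hx
  · intro x hx hsx htr
    rw [mem_LΩ] at hx
    have h1 := extend L (s : Mat n Ω) N h x hx
    rw [Bm_comm hsx, hs, smul_mul_assoc, one_mul, smul_smul, DD_smul] at h1
    have hN0 : (N : Ω) ≠ 0 := by exact_mod_cast hN.ne'
    rcases smul_eq_zero.1 h1 with h2 | h2
    · exact absurd h2 (pow_ne_zero _ (mul_ne_zero hN0 hc))
    · rcases Nat.eq_zero_or_pos n with hn | hn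
      · subst hn
        exact ⟨1, Subsingleton.elim _ _⟩
      · have h3 := of_DD hn h2
        rw [htr, mul_zero, zero_smul, sub_zero] at h3
        exact h3

end extend

end Pool.Agent.N817.PL.Lie
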