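import Pool.Agent.H86.FMLib.N817.PL.Log

/-!
# The Lie algebra of a group of elements of a p-adic Banach algebra
-/

set_option autoImplicit false
set_option linter.unusedSectionVars false

namespace Pool.Agent.N817.PL.Lim

open Filter Topology

variable {p : ℕ} [hp : Fact p.Prime] {R : Type*} [NormedRing R] [NormedAlgebra ℚ_[p] R]
  {G : Type*} [Group G]

/-- the difference quotients of level `k` -/
def A (p : ℕ) [Fact p.Prime] {R : Type*} [NormedRing R] [NormedAlgebra ℚ_[p] R]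
    {G : Type*} [Group G] (r : G →* R) (U : Subgroup G) (k : ℕ) : Set R :=
  {x | ∃ u ∈ U, x = ((p : ℚ_[p])⁻¹) ^ k • (r u - 1)}

/-- `x` is a limit of difference quotients of the sequence `u` -/
def Ap (p : ℕ) [Fact p.Prime] {R : Type*} [NormedRing R] [NormedAlgebra ℚ_[p] R]
    {G : Type*} [Group G] (r : G →* R) (U : Subgroup G) (u : ℕ → G) (x : R) : Prop :=
  (∀ k, u k ∈ U) ∧ Tendsto (fun k => ((p : ℚ_[p])⁻¹) ^ k • (r (u k) - 1)) atTop (𝓝 x)

variable {r : G →* R} {U : Subgroup G}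

theorem A_nonempty (k : ℕ) : (A p r U k).Nonempty := ⟨_, 1, U.one_mem, rfl⟩

theorem exists_ap {x : R} : (∃ u, Ap p r U u x) ↔
    Tendsto (fun k => Metric.infDist x (A p r U k)) atTop (𝓝 0) := by
  constructor
  · rintro ⟨u, hu, hx⟩
    refine squeeze_zero (fun k => Metric.infDist_nonneg)
      (fun k => Metric.infDist_le_dist_of_mem (y := ((p : ℚ_[p])⁻¹) ^ k • (r (u k) - 1))
        ⟨u k, hu k, rfl⟩) ?_
    have := (tendsto_iff_dist_tendsto_zero.1 hx)
    refine this.congr fun k => dist_comm _ _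
  · intro h
    have h1 : ∀ k : ℕ, ∃ v ∈ U, dist x (((p : ℚ_[p])⁻¹) ^ k • (r v - 1)) <
        Metric.infDist x (A p r U k) + 1 / ((k : ℝ) + 1) := by
      intro k
      have h2 : Metric.infDist x (A p r U k) < Metric.infDist x (A p r U k) + 1 / ((k : ℝ) + 1) := by
        have : (0 : ℝ) < 1 / ((k : ℝ) + 1) := by positivity
        linarith
      obtain ⟨y, ⟨v, hv, rfl⟩, hy⟩ := (Metric.infDist_lt_iff (A_nonempty k)).1 h2
      exact ⟨v, hv, hy⟩
    choose u hu hd using h1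
    refine ⟨u, hu, ?_⟩
    rw [tendsto_iff_dist_tendsto_zero]
    have h3 : Tendsto (fun k : ℕ => Metric.infDist x (A p r U k) + 1 / ((k : ℝ) + 1)) atTop (𝓝 0) := by
      have := h.add tendsto_one_div_add_atTop_nhds_zero_nat
      rwa [add_zero] at this
    refine squeeze_zero (fun k => dist_nonneg) (fun k => ?_) h3
    rw [dist_comm]
    exact (hd k).le

section

variable {u w : ℕ → G} {x y : R}

theorem q_tendsto : Tendsto (fun k : ℕ => (p : ℚ_[p]) ^ k) atTop (𝓝 0) := by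
  have hp1 : (1 : ℝ) < p := by exact_mod_cast hp.out.one_lt
  apply tendsto_pow_atTop_nhds_zero_of_norm_lt_one
  rw [Padic.norm_p]
  exact inv_lt_one_of_one_lt₀ hp1

theorem back (k : ℕ) (z : R) : z - 1 = (p : ℚ_[p]) ^ k • (((p : ℚ_[p])⁻¹) ^ k • (z - 1)) := by
  have h3 : (p : ℚ_[p]) ≠ 0 := by exact_mod_cast hp.out.ne_zero
  rw [smul_smul, ← mul_pow, mul_inv_cancel₀ h3, one_pow, one_smul]

theorem qp (k : ℕ) : ((p : ℚ_[p])⁻¹) ^ k * (p : ℚ_[p]) ^ k = 1 := by
  have h3 : (p : ℚ_[p]) ≠ 0 := by exact_mod_cast hp.out.ne_zero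
  rw [← mul_pow, inv_mul_cancel₀ h3, one_pow]

theorem Ap.sub_one (h : Ap p r U u x) : Tendsto (fun k => r (u k) - 1) atTop (𝓝 0) := by
  have h1 := (q_tendsto (p := p)).smul h.2
  rw [zero_smul] at h1
  refine h1.congr fun k => ?_
  rw [← back]

theorem Ap.one (h : Ap p r U u x) : Tendsto (fun k => r (u k)) atTop (𝓝 1) := by
  have h1 := h.sub_one.add_const 1
  rw [zero_add] at h1
  exact h1.congr fun k => by abel

theorem Ap.add (hu : Ap p r U u x) (hw : Ap p r U w y) :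
    Ap p r U (fun k => u k * w k) (x + y) := by
  refine ⟨fun k => U.mul_mem (hu.1 k) (hw.1 k), ?_⟩
  have h1 := (hu.2.add hw.2).add (((q_tendsto (p := p)).smul (hu.2.mul hw.2)))
  rw [zero_smul, add_zero] at h1
  refine h1.congr fun k => ?_
  have h2 : r (u k * w k) - 1 = (r (u k) - 1) + (r (w k) - 1) + (r (u k) - 1) * (r (w k) - 1) := by
    rw [map_mul, sub_mul, mul_sub, mul_one, one_mul]
    abel
  rw [h2, smul_add, smul_add]
  congr 1
  rw [smul_mul_smul_comm, smul_smul]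
  congr 1
  rw [← mul_assoc, mul_comm ((p : ℚ_[p]) ^ k), qp, one_mul]

theorem Ap.inv_one {C : ℝ} (hC : ∀ g, ‖r g‖ ≤ C) (h : Ap p r U u x) :
    Tendsto (fun k => r (u k)⁻¹) atTop (𝓝 1) := by
  have h1 : ∀ k, r (u k)⁻¹ - 1 = -(r (u k)⁻¹ * (r (u k) - 1)) := by
    intro k
    rw [mul_sub, ← map_mul, inv_mul_cancel, map_one, mul_one]
    abel
  have h2 : Tendsto (fun k => r (u k)⁻¹ - 1) atTop (𝓝 0) := by
    rw [tendsto_zero_iff_norm_tendsto_zero]
    have h3 := (tendsto_zero_iff_norm_tendsto_zero.1 h.sub_one).const_mul C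
    rw [mul_zero] at h3
    refine squeeze_zero (fun k => norm_nonneg _) (fun k => ?_) h3
    rw [h1, norm_neg]
    exact (norm_mul_le _ _).trans (mul_le_mul_of_nonneg_right (hC _) (norm_nonneg _))
  have h4 := h2.add_const 1
  rw [zero_add] at h4
  exact h4.congr fun k => by abel

theorem Ap.neg {C : ℝ} (hC : ∀ g, ‖r g‖ ≤ C) (h : Ap p r U u x) :
    Ap p r U (fun k => (u k)⁻¹) (-x) := by
  refine ⟨fun k => U.inv_mem (h.1 k), ?_⟩
  have h1 := ((h.inv_one hC).mul h.2).neg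
  rw [one_mul] at h1
  refine h1.congr fun k => ?_
  rw [mul_smul_comm, ← smul_neg]
  congr 1
  rw [mul_sub, ← map_mul, inv_mul_cancel, map_one, mul_one]
  abel

theorem Ap.shift (h : Ap p r U u x) : Ap p r U (fun k => u (k - 1)) ((p : ℚ_[p])⁻¹ • x) := by
  refine ⟨fun k => h.1 _, ?_⟩
  have h1 : Tendsto (fun k => (p : ℚ_[p])⁻¹ • ((p : ℚ_[p])⁻¹) ^ k • (r (u k) - 1)) atTop
    (𝓝 ((p : ℚ_[p])⁻¹ • x)) := h.2.const_smul _
  rw [← tendsto_add_atTop_iff_nat 1]
  refine h1.congr fun k => ?_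
  simp only [Nat.add_sub_cancel]
  rw [smul_smul, ← pow_succ']

theorem lie_aux (a b : ℚ_[p]) (x y z t : R) :
    ((a • x) * (b • y) - (b • y) * (a • x)) * z * t = (a * b) • ((x * y - y * x) * z * t) := by
  rw [smul_mul_smul_comm, smul_mul_smul_comm, mul_comm b a, ← smul_sub, smul_mul_assoc,
    smul_mul_assoc]

theorem Ap.lie {C : ℝ} (hC : ∀ g, ‖r g‖ ≤ C) (hu : Ap p r U u x) (hw : Ap p r U w y) :
    Ap p r U (fun m => u (m / 2) * w (m - m / 2) * (u (m / 2))⁻¹ * (w (m - m / 2))⁻¹)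
      (x * y - y * x) := by
  have t1 : Tendsto (fun m : ℕ => m / 2) atTop atTop :=
    Nat.tendsto_div_const_atTop (by norm_num)
  have t2 : Tendsto (fun m : ℕ => m - m / 2) atTop atTop := by
    refine tendsto_atTop_mono (fun m => ?_) t1
    omega
  refine ⟨fun k => U.mul_mem (U.mul_mem (U.mul_mem (hu.1 _) (hw.1 _)) (U.inv_mem (hu.1 _)))
    (U.inv_mem (hw.1 _)), ?_⟩
  have a1 := hu.2.comp t1
  have a2 := hw.2.comp t2
  have a3 := (hu.inv_one hC).comp t1
  have a4 := (hw.inv_one hC).comp t2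
  have h1 := (((a1.mul a2).sub (a2.mul a1)).mul a3).mul a4
  rw [mul_one, mul_one] at h1
  refine h1.congr fun m => ?_
  simp only [Function.comp]
  set i := m / 2 with hi
  set j := m - m / 2 with hj
  have hij : m = i + j := by omega
  have h2 : r (u i * w j * (u i)⁻¹ * (w j)⁻¹) - 1 =
      ((r (u i) - 1) * (r (w j) - 1) - (r (w j) - 1) * (r (u i) - 1)) * r (u i)⁻¹ * r (w j)⁻¹ := by
    have h3 : (r (u i) - 1) * (r (w j) - 1) - (r (w j) - 1) * (r (u i) - 1) =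
        r (u i) * r (w j) - r (w j) * r (u i) := by
      simp only [sub_mul, mul_sub, mul_one, one_mul]
      abel
    rw [h3, sub_mul, sub_mul]
    simp only [map_mul]
    have h4 : r (w j) * r (u i) * r (u i)⁻¹ * r (w j)⁻¹ = 1 := by
      simp only [← map_mul]
      rw [show w j * u i * (u i)⁻¹ * (w j)⁻¹ = 1 by group, map_one]
    rw [h4]
  rw [h2]
  have h5 : ((p : ℚ_[p])⁻¹) ^ m = ((p : ℚ_[p])⁻¹) ^ i * ((p : ℚ_[p])⁻¹) ^ j := by
    rw [hij, pow_add]
  rw [lie_aux, h5]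

theorem Ap.conj (h : Ap p r U u x) (g : G) (hg : ∀ v ∈ U, g * v * g⁻¹ ∈ U) :
    Ap p r U (fun k => g * u k * g⁻¹) (r g * x * r g⁻¹) := by
  refine ⟨fun k => hg _ (h.1 k), ?_⟩
  have h1 := (h.2.const_mul (r g)).mul_const (r g⁻¹)
  refine h1.congr fun k => ?_
  rw [mul_smul_comm, smul_mul_assoc]
  congr 1
  rw [mul_sub, sub_mul, mul_one, ← map_mul, ← map_mul, ← map_mul, mul_inv_cancel, map_one]

theorem Ap.zero : Ap p r U (fun _ => 1) (0 : R) := by
  refine ⟨fun _ => U.one_mem, ?_⟩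
  simp only [map_one, sub_self, smul_zero]
  exact tendsto_const_nhds

end

/-- the set of all limits of difference quotients is closed -/
theorem isClosed_L : IsClosed {x : R | ∃ u, Ap p r U u x} := by
  rw [← isSeqClosed_iff_isClosed]
  intro s x hs hx
  change ∃ u, Ap p r U u x
  rw [exists_ap]
  rw [Metric.tendsto_atTop]
  intro ε hε
  obtain ⟨m, hm⟩ := (Metric.tendsto_atTop.1 hx) (ε / 2) (by positivity)
  have h1 := exists_ap.1 (hs m)
  obtain ⟨K, hK⟩ := (Metric.tendsto_atTop.1 h1) (ε / 2) (by positivity)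
  refine ⟨K, fun k hk => ?_⟩
  have h2 := hK k hk
  rw [Real.dist_0_eq_abs, abs_of_nonneg Metric.infDist_nonneg] at h2 ⊢
  have h3 : Metric.infDist x (A p r U k) ≤ Metric.infDist (s m) (A p r U k) + dist x (s m) :=
    Metric.infDist_le_infDist_add_dist
  have h4 := hm m le_rfl
  rw [dist_comm] at h4
  linarith

theorem nat_mul {x : R} (hx : ∃ u, Ap p r U u x) (n : ℕ) : ∃ u, Ap p r U u ((n : ℚ_[p]) • x) := by
  induction n with
  | zero =>
    rw [Nat.cast_zero, zero_smul]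
    exact ⟨_, Ap.zero⟩
  | succ n ih =>
    obtain ⟨u, hu⟩ := ih
    obtain ⟨w, hw⟩ := hx
    rw [Nat.cast_succ, add_smul, one_smul]
    exact ⟨_, hu.add hw⟩

theorem shifts {x : R} (hx : ∃ u, Ap p r U u x) (j : ℕ) :
    ∃ u, Ap p r U u (((p : ℚ_[p])⁻¹) ^ j • x) := by
  induction j with
  | zero =>
    rw [pow_zero, one_smul]
    exact hx
  | succ j ih =>
    obtain ⟨u, hu⟩ := ih
    rw [pow_succ', mul_smul]
    exact ⟨_, hu.shift⟩

theorem int_mul {x : R} (hx : ∃ u, Ap p r U u x) (z : ℤ_[p]) :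
    ∃ u, Ap p r U u ((z : ℚ_[p]) • x) := by
  refine (PadicInt.denseRange_natCast (p := p)).induction_on z ?_ fun n => ?_
  · have h1 : Continuous fun z : ℤ_[p] => (z : ℚ_[p]) • x :=
      (continuous_subtype_val).smul continuous_const
    exact (isClosed_L (p := p) (r := r) (U := U)).preimage h1
  · have := nat_mul hx n
    simpa using this

theorem all_mul {x : R} (hx : ∃ u, Ap p r U u x) (c : ℚ_[p]) :
    ∃ u, Ap p r U u (c • x) := by
  have hp1 : (1 : ℝ) < p := by exact_mod_cast hp.out.one_lt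
  obtain ⟨j, hj⟩ := pow_unbounded_of_one_lt ‖c‖ hp1
  have h1 : ‖(p : ℚ_[p]) ^ j * c‖ ≤ 1 := by
    rw [norm_mul, norm_pow, Padic.norm_p, inv_pow, inv_mul_le_iff₀ (by positivity), mul_one]
    exact hj.le
  have h2 := shifts (int_mul hx ⟨(p : ℚ_[p]) ^ j * c, h1⟩) j
  rw [smul_smul, ← mul_assoc, qp, one_mul] at h2
  exact h2

/-- the Lie algebra of the group, as a vector space over `ℚ_p` -/
def L (p : ℕ) [Fact p.Prime] {R : Type*} [NormedRing R] [NormedAlgebra ℚ_[p] R]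
    {G : Type*} [Group G] (r : G →* R) (U : Subgroup G) : Submodule ℚ_[p] R where
  carrier := {x | ∃ u, Ap p r U u x}
  add_mem' := by
    rintro x y ⟨u, hu⟩ ⟨w, hw⟩
    exact ⟨_, hu.add hw⟩
  zero_mem' := ⟨_, Ap.zero⟩
  smul_mem' c x hx := all_mul hx c

theorem mem_L {x : R} : x ∈ L p r U ↔ ∃ u, Ap p r U u x := Iff.rfl

theorem lie_mem {C : ℝ} (hC : ∀ g, ‖r g‖ ≤ C) {x y : R} (hx : x ∈ L p r U) (hy : y ∈ L p r U) :
    x * y - y * x ∈ L p r U := by
  obtain ⟨u, hu⟩ := hx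
  obtain ⟨w, hw⟩ := hy
  exact ⟨_, hu.lie hC hw⟩

theorem conj_mem (g : G) (hg : ∀ v ∈ U, g * v * g⁻¹ ∈ U) {x : R} (hx : x ∈ L p r U) :
    r g * x * r g⁻¹ ∈ L p r U := by
  obtain ⟨u, hu⟩ := hx
  exact ⟨_, hu.conj g hg⟩

/-- the logarithm of an element of `U` near `1` is in the Lie algebra -/
theorem log_mem {v : G} (hv : v ∈ U) {ℓ : R}
    (hℓ : Tendsto (fun k => Log.f p k (r v - 1)) atTop (𝓝 ℓ)) : ℓ ∈ L p r U := by
  refine ⟨fun k => v ^ p ^ k, fun k => U.pow_mem hv _, hℓ.congr fun k => ?_⟩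
  unfold Log.f
  rw [add_sub_cancel, map_pow]

end Pool.Agent.N817.PL.Lim
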