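import Pool.Agent.H86.FMLib.N817.PL.Unif

/-!
# Matrices all of whose eigenvalues are in `ℚ_p`
-/

set_option autoImplicit false
set_option linter.unusedSectionVars false
set_option linter.dupNamespace false

namespace Pool.Agent.N817.PL.Spl

open Pool.Agent.N817.PL.DD Pool.Agent.N817.PL.Nrm Pool.Agent.N817.PL.Abs
open Filter Topology Polynomial

attribute [local instance] nring nalg

section

variable {p : ℕ} [hp : Fact p.Prime] {F : Type*} [NormedField F] [NormedAlgebra ℚ_[p] F]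
  [IsUltrametricDist F] {n : ℕ}

theorem root_of_eigvec {Ω : Type*} [Field Ω] {n : ℕ} {A : Mat n Ω} {a : Ω} {v : Fin n → Ω}
    (hv0 : v ≠ 0) (hv : A.mulVec v = a • v) : A.charpoly.IsRoot a := by
  have h1 : (Matrix.scalar (Fin n) a - A).det = 0 := by
    apply Matrix.exists_mulVec_eq_zero_iff.1
    refine ⟨v, hv0, ?_⟩
    rw [Matrix.sub_mulVec, sub_eq_zero, hv]
    ext i
    simp [Matrix.scalar_apply, Matrix.mulVec_diagonal]
  rw [← Matrix.eval_charpoly] at h1
  exact h1

theorem mapMatrix_smul {F Ω : Type*} [Field F] [Field Ω] {n : ℕ} (f : F →+* Ω) (c : F)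
    (A : Mat n F) : f.mapMatrix (c • A) = f c • f.mapMatrix A := by
  ext i j
  exact map_mul f c (A i j)

/-- the norm of an eigenvalue -/
theorem eig_norm {A : Mat n F} {a : F} (ha : A.charpoly.IsRoot a) : ‖a‖ ≤ ‖A‖ := by
  obtain ⟨w, hw0, hw⟩ := Unif.exists_eigvec ha
  obtain ⟨j, hj⟩ := Function.ne_iff.1 hw0
  have hne : (Finset.univ : Finset (Fin n)).Nonempty := ⟨j, Finset.mem_univ j⟩
  obtain ⟨i, -, hi⟩ := Finset.exists_max_image Finset.univ (fun i => ‖w i‖) hne
  have hwi : 0 < ‖w i‖ := lt_of_lt_of_le (norm_pos_iff.2 hj) (hi j (Finset.mem_univ j))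
  have h1 := congrFun hw i
  rw [Pi.smul_apply, smul_eq_mul] at h1
  have h2 : ‖A.mulVec w i‖ ≤ ‖A‖ * ‖w i‖ := by
    rw [Matrix.mulVec, dotProduct]
    apply IsUltrametricDist.norm_sum_le_of_forall_le_of_nonneg (by positivity)
    intro l _
    rw [norm_mul]
    exact mul_le_mul (norm_entry A i l) (hi l (Finset.mem_univ l)) (norm_nonneg _) (norm_nonneg _)
  rw [h1, norm_mul] at h2
  exact le_of_mul_le_mul_right h2 hwi

/-- the characteristic polynomial is split over `ℚ_p`, with bounded roots -/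
def Spl (p : ℕ) [Fact p.Prime] (F : Type*) [NormedField F] [NormedAlgebra ℚ_[p] F] (n : ℕ) (R : ℝ) :
    Set (Mat n F) :=
  {A | ∃ a : Fin n → ℚ_[p], (∀ i, ‖a i‖ ≤ R) ∧
    A.charpoly = ∏ i, (X - C (algebraMap ℚ_[p] F (a i)))}

theorem isClosed_Spl (R : ℝ) : IsClosed (Spl p F n R) := by
  have hseq : SequentialSpace (Mat n F) := by
    have h : SequentialSpace (Fin n → Fin n → F) := inferInstance
    exact h
  rw [← isSeqClosed_iff_isClosed]
  intro A B hA hB
  choose a ha hA using hA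
  have hinf : Infinite F := Infinite.of_injective (algebraMap ℚ_[p] F) (algebraMap ℚ_[p] F).injective
  have hmem : ∀ k, a k ∈ Set.pi Set.univ fun _ : Fin n => Metric.closedBall (0 : ℚ_[p]) R := by
    intro k i _
    rw [mem_closedBall_zero_iff]
    exact ha k i
  obtain ⟨b, hb, φ, hφ, hab⟩ := (isCompact_univ_pi fun _ : Fin n =>
    isCompact_closedBall (0 : ℚ_[p]) R).tendsto_subseq hmem
  refine ⟨b, fun i => ?_, ?_⟩
  · have := hb i (Set.mem_univ i)
    rwa [mem_closedBall_zero_iff] at this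
  · apply Polynomial.funext
    intro t
    have h1 : Tendsto (fun k => (A (φ k)).charpoly.eval t) atTop (𝓝 (B.charpoly.eval t)) := by
      simp only [Matrix.eval_charpoly]
      have hcont : Continuous fun M : Mat n F => (Matrix.scalar (Fin n) t - M).det :=
        (continuous_const.sub continuous_id).matrix_det
      exact (hcont.tendsto B).comp (hB.comp hφ.tendsto_atTop)
    have h2 : Tendsto (fun k => (A (φ k)).charpoly.eval t) atTop
        (𝓝 ((∏ i, (X - C (algebraMap ℚ_[p] F (b i)))).eval t)) := by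
      simp only [hA, eval_prod, eval_sub, eval_X, eval_C]
      refine tendsto_finsetProd _ fun i _ => tendsto_const_nhds.sub ?_
      have hcont : Continuous (algebraMap ℚ_[p] F) := continuous_algebraMap ℚ_[p] F
      exact (hcont.tendsto _).comp ((tendsto_pi_nhds.1 hab) i)
    exact tendsto_nhds_unique h1 h2

theorem lift_multiset {α β : Type*} (g : α → β) (P : α → Prop) (s : Multiset β) :
    (∀ x ∈ s, ∃ a, x = g a ∧ P a) → ∃ l : List α, (∀ a ∈ l, P a) ∧ s = (l.map g : List β) := by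
  induction s using Multiset.induction_on with
  | empty =>
    intro _
    exact ⟨[], by simp, by simp⟩
  | cons x s ih =>
    intro h
    obtain ⟨l, hl, hs⟩ := ih fun y hy => h y (Multiset.mem_cons_of_mem hy)
    obtain ⟨a, ha, hPa⟩ := h x (Multiset.mem_cons_self x s)
    refine ⟨a :: l, ?_, ?_⟩
    · intro b hb
      rcases List.mem_cons.1 hb with rfl | hb
      · exact hPa
      · exact hl b hb
    · rw [List.map_cons, ← ha, ← Multiset.cons_coe, hs]

theorem mem_Spl {A : Mat n F} {R : ℝ} (h : ∀ a : AlgebraicClosure F,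
    (A.charpoly.map (algebraMap F (AlgebraicClosure F))).IsRoot a →
      ∃ b : ℚ_[p], a = algebraMap F (AlgebraicClosure F) (algebraMap ℚ_[p] F b) ∧ ‖b‖ ≤ R) :
    A ∈ Spl p F n R := by
  set f := algebraMap F (AlgebraicClosure F) with hf
  set q := A.charpoly.map f with hq
  have hqm : q.Monic := A.charpoly_monic.map f
  have hqd : q.natDegree = n := by
    rw [hq, A.charpoly_monic.natDegree_map, Matrix.charpoly_natDegree_eq_dim, Fintype.card_fin]
  have hspl : q.Splits := IsAlgClosed.splits q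
  have h4 : q = (q.roots.map fun b => X - C b).prod := by
    have := hspl.eq_prod_roots
    rw [hqm.leadingCoeff, C_1, one_mul] at this
    exact this
  have h5 : Multiset.card q.roots = n := by rw [← hspl.natDegree_eq_card_roots, hqd]
  obtain ⟨l, hl, hs⟩ := lift_multiset (fun b : ℚ_[p] => f (algebraMap ℚ_[p] F b))
    (fun b => ‖b‖ ≤ R) q.roots (fun x hx => h x (isRoot_of_mem_roots hx))
  have hlen : l.length = n := by
    rw [hs, Multiset.coe_card, List.length_map] at h5
    exact h5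
  refine ⟨fun i => l.get (i.cast hlen.symm), fun i => hl _ (List.get_mem _ _), ?_⟩
  apply Polynomial.map_injective f f.injective
  rw [← hq, h4, hs, Multiset.map_coe, Multiset.prod_coe, List.map_map, Polynomial.map_prod]
  subst hlen
  simp only [Polynomial.map_sub, map_X, map_C]
  rw [← List.prod_ofFn]
  congr 1
  apply List.ext_get
  · simp
  · intro i h1 h2
    simp

end

section finite

variable {p : ℕ} [hp : Fact p.Prime] {F : Type*} [NormedField F] [NormedAlgebra ℚ_[p] F]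
  [FiniteDimensional ℚ_[p] F] [IsUltrametricDist F] {n : ℕ}

/-- the matrices with eigenvector `v` and eigenvalue in `ℚ_p` -/
def SQ (p : ℕ) [Fact p.Prime] {F : Type*} [NormedField F] [NormedAlgebra ℚ_[p] F] {n : ℕ}
    (v : Fin n → AlgebraicClosure F) : Subalgebra ℚ_[p] (Mat n F) where
  carrier := {A | ∃ a : ℚ_[p], ((algebraMap F (AlgebraicClosure F)).mapMatrix A).mulVec v =
    algebraMap F (AlgebraicClosure F) (algebraMap ℚ_[p] F a) • v}
  mul_mem' := by
    rintro A B ⟨a, ha⟩ ⟨b, hb⟩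
    refine ⟨b * a, ?_⟩
    rw [map_mul, ← Matrix.mulVec_mulVec, hb, Matrix.mulVec_smul, ha, smul_smul, map_mul, map_mul]
  add_mem' := by
    rintro A B ⟨a, ha⟩ ⟨b, hb⟩
    refine ⟨a + b, ?_⟩
    rw [map_add, Matrix.add_mulVec, ha, hb, map_add, map_add, add_smul]
  algebraMap_mem' := by
    intro c
    refine ⟨c, ?_⟩
    have h1 : (algebraMap F (AlgebraicClosure F)).mapMatrix (algebraMap ℚ_[p] (Mat n F) c) =
        (algebraMap F (AlgebraicClosure F) (algebraMap ℚ_[p] F c)) •
          (1 : Mat n (AlgebraicClosure F)) := by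
      ext i j
      by_cases h : i = j
      · subst h
        simp [Matrix.algebraMap_matrix_apply]
      · simp [Matrix.algebraMap_matrix_apply, h]
    rw [h1, Matrix.smul_mulVec, Matrix.one_mulVec]

theorem eig_Qp {B : Mat n F} (hB : ‖B - 1‖ ≤ 1 / 4) {a : AlgebraicClosure F}
    (ha : (B.charpoly.map (algebraMap F (AlgebraicClosure F))).IsRoot a) {m : ℕ} (hm : 0 < m)
    {c : ℚ_[p]} (hc : a ^ m = algebraMap F (AlgebraicClosure F) (algebraMap ℚ_[p] F c)) :
    ∃ b : ℚ_[p], a = algebraMap F (AlgebraicClosure F) (algebraMap ℚ_[p] F b) ∧ ‖b‖ ≤ 1 := by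
  have hcompF : CompleteSpace F := FiniteDimensional.complete ℚ_[p] F
  have hcomp : @CompleteSpace (Mat n F) PseudoMetricSpace.toUniformSpace := complete
  have hult : IsUltrametricDist (Mat n F) := ultraMat
  set f := algebraMap F (AlgebraicClosure F) with hf
  rw [← Matrix.charpoly_map] at ha
  obtain ⟨v, hv0, hv⟩ := Unif.exists_eigvec ha
  have hv' : (f.mapMatrix B).mulVec v = a • v := hv
  have hfd : FiniteDimensional ℚ_[p] (Mat n F) := Module.Finite.trans F (Mat n F)
  have hcl : IsClosed ((SQ p v : Subalgebra ℚ_[p] (Mat n F)) : Set (Mat n F)) :=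
    Submodule.closed_of_finiteDimensional (Subalgebra.toSubmodule (SQ p v))
  have h1 := Log.mem_of_pow (p := p) (R := Mat n F) (SQ p v) hcl (x := B - 1) hB hm (by
    rw [add_sub_cancel]
    refine ⟨c, ?_⟩
    rw [← hf, map_pow, Unif.pow_mulVec hv', hc])
  have h2 : B ∈ SQ p v := by
    have := (SQ p v).add_mem h1 (SQ p v).one_mem
    rwa [sub_add_cancel] at this
  obtain ⟨b, hb⟩ := h2
  rw [← hf, hv'] at hb
  have h3 : a = f (algebraMap ℚ_[p] F b) := by
    obtain ⟨i, hi⟩ := Function.ne_iff.1 hv0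
    have h5 := congrFun hb i
    rw [Pi.smul_apply, Pi.smul_apply, smul_eq_mul, smul_eq_mul] at h5
    exact mul_right_cancel₀ hi h5
  refine ⟨b, h3, ?_⟩
  have h4 : B.charpoly.IsRoot (algebraMap ℚ_[p] F b) := by
    have ha' : (B.map f).charpoly.IsRoot a := ha
    rw [Matrix.charpoly_map, h3, IsRoot.def, eval_map, Polynomial.eval₂_at_apply,
      map_eq_zero] at ha'
    exact ha'
  have h5 := eig_norm h4
  rw [norm_algebraMap'] at h5
  refine h5.trans ?_
  have h6 : B = 1 + (B - 1) := by abel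
  rw [h6]
  refine (IsUltrametricDist.norm_add_le_max _ _).trans (max_le ?_ (hB.trans (by norm_num)))
  rw [norm_le zero_le_one]
  intro i j
  by_cases hij : i = j
  · subst hij
    simp
  · simp [hij]

/-- all eigenvalues have a power in `ℚ_p` -/
def QpRoot (p : ℕ) [Fact p.Prime] {F : Type*} [NormedField F] [NormedAlgebra ℚ_[p] F] {n : ℕ}
    (A : Mat n F) : Prop :=
  ∀ a : AlgebraicClosure F, (A.charpoly.map (algebraMap F (AlgebraicClosure F))).IsRoot a →
    ∃ m : ℕ, 0 < m ∧ ∃ c : ℚ_[p], a ^ m = algebraMap F (AlgebraicClosure F) (algebraMap ℚ_[p] F c)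

theorem Spl_of_QpRoot {A : Mat n F} (h : QpRoot p A) {N : ℕ} (hN : 0 < N)
    (hA : ‖A ^ N - 1‖ ≤ 1 / 4) : A ^ N ∈ Spl p F n 1 := by
  apply mem_Spl
  intro a ha
  rw [← Matrix.charpoly_map] at ha
  have h1 : a ∈ spectrum (AlgebraicClosure F)
      (((algebraMap F (AlgebraicClosure F)).mapMatrix A) ^ N) := by
    rw [Matrix.mem_spectrum_iff_isRoot_charpoly, ← map_pow]
    exact ha
  rw [spectrum.map_pow_of_pos _ hN] at h1
  obtain ⟨b, hb, rfl⟩ := h1
  rw [Matrix.mem_spectrum_iff_isRoot_charpoly] at hb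
  obtain ⟨m, hm, c, hc⟩ := h b (by
    rw [← Matrix.charpoly_map]
    exact hb)
  refine eig_Qp (p := p) hA (a := b ^ N) (by
    rw [← Matrix.charpoly_map]
    exact ha) hm (c := c ^ N) ?_
  rw [← pow_mul, mul_comm, pow_mul, hc, map_pow, map_pow]

theorem QpRoot_of_Spl {A : Mat n F} {R : ℝ} {N : ℕ} (hN : 0 < N) (h : A ^ N ∈ Spl p F n R) :
    QpRoot p A := by
  intro a ha
  refine ⟨N, hN, ?_⟩
  obtain ⟨b, -, hb⟩ := h
  rw [← Matrix.charpoly_map] at ha
  have h1 : a ^ N ∈ spectrum (AlgebraicClosure F)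
      (((algebraMap F (AlgebraicClosure F)).mapMatrix A) ^ N) := by
    apply spectrum.pow_mem_pow
    rw [Matrix.mem_spectrum_iff_isRoot_charpoly]
    exact ha
  rw [Matrix.mem_spectrum_iff_isRoot_charpoly, ← map_pow] at h1
  have h2 : ((A ^ N).map (algebraMap F (AlgebraicClosure F))).charpoly.IsRoot (a ^ N) := h1
  rw [Matrix.charpoly_map, hb, Polynomial.map_prod, IsRoot.def, eval_prod] at h2
  obtain ⟨i, -, hi⟩ := Finset.prod_eq_zero_iff.1 h2
  refine ⟨b i, ?_⟩
  rw [Polynomial.map_sub, map_X, map_C, eval_sub, eval_X, eval_C, sub_eq_zero] at hi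
  exact hi

/-- limits of difference quotients -/
theorem Spl_lim {G : Type*} [Group G] {r : G →* Mat n F} {U : Subgroup G}
    (hU : ∀ u ∈ U, ‖r u - 1‖ ≤ 1 / 4) (hQ : ∀ u ∈ U, QpRoot p (r u)) {X : Mat n F}
    (hX : X ∈ Lim.L p r U) : ∃ R, X ∈ Spl p F n R := by
  obtain ⟨u, hu, hX⟩ := hX
  obtain ⟨R, hR⟩ := (hX.norm).bddAbove_range
  refine ⟨R, ?_⟩
  refine (isClosed_Spl (p := p) (F := F) (n := n) R).mem_of_tendsto hX
    (Eventually.of_forall fun k => ?_)
  have hRk : ‖((p : ℚ_[p])⁻¹) ^ k • (r (u k) - 1)‖ ≤ R := hR ⟨k, rfl⟩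
  set f := algebraMap F (AlgebraicClosure F) with hf
  apply mem_Spl
  intro a ha
  have ha0 := ha
  rw [← Matrix.charpoly_map] at ha
  obtain ⟨v, hv0, hv⟩ := Unif.exists_eigvec ha
  have hv' : (f.mapMatrix (((p : ℚ_[p])⁻¹) ^ k • (r (u k) - 1))).mulVec v = a • v := hv
  -- the eigenvalue of `r (u k)`
  have h1 : (f.mapMatrix (r (u k))).mulVec v =
      (1 + f (algebraMap ℚ_[p] F ((p : ℚ_[p]) ^ k)) * a) • v := by
    have h2 : r (u k) = 1 + (algebraMap ℚ_[p] F ((p : ℚ_[p]) ^ k)) •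
        (((p : ℚ_[p])⁻¹) ^ k • (r (u k) - 1)) := by
      rw [algebraMap_smul, ← Lim.back]
      abel
    rw [h2, map_add, map_one, mapMatrix_smul, Matrix.add_mulVec, Matrix.one_mulVec,
      Matrix.smul_mulVec, hv', add_smul, one_smul, mul_smul]
  have h2 := root_of_eigvec hv0 h1
  have h3 : ((r (u k)).charpoly.map f).IsRoot (1 + f (algebraMap ℚ_[p] F ((p : ℚ_[p]) ^ k)) * a) := by
    rw [← Matrix.charpoly_map]
    exact h2
  obtain ⟨m, hm, c, hc⟩ := hQ _ (hu k) _ h3
  obtain ⟨b, hb, -⟩ := eig_Qp (hU _ (hu k)) h3 hm hc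
  have hpk' : (p : ℚ_[p]) ^ k ≠ 0 := by
    have h3 : (p : ℚ_[p]) ≠ 0 := by exact_mod_cast hp.out.ne_zero
    exact pow_ne_zero _ h3
  have h4 : a = f (algebraMap ℚ_[p] F ((b - 1) / (p : ℚ_[p]) ^ k)) := by
    have h5 : f (algebraMap ℚ_[p] F ((p : ℚ_[p]) ^ k)) ≠ 0 := by
      rw [Ne, map_eq_zero, map_eq_zero]
      exact hpk'
    rw [map_div₀, map_div₀, eq_div_iff h5, map_sub, map_sub, map_one, map_one, ← hb]
    ring
  refine ⟨_, h4, ?_⟩
  have h5 : (((p : ℚ_[p])⁻¹) ^ k • (r (u k) - 1)).charpoly.IsRoot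
      (algebraMap ℚ_[p] F ((b - 1) / (p : ℚ_[p]) ^ k)) := by
    rw [h4, IsRoot.def, eval_map, Polynomial.eval₂_at_apply, map_eq_zero] at ha0
    exact ha0
  have h6 := eig_norm h5
  rw [norm_algebraMap'] at h6
  exact h6.trans hRk

end finite

end Pool.Agent.N817.PL.Spl
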